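import Pool.Agent.MP_1246c0_nt.H12.SpecA
import Pool.Agent.MP_28f2cb_lc.H85.HE

/-! Norms of units in the layers over the quadratic field. -/

namespace Pool.Agent.MP_1246c0_nt.H12

open NumberField IsDedekindDomain Pool.Agent.MP_db5b97_nt Pool.Agent.MP_db5b97_nt.H85

namespace HERB

section Gen

variable {A B : Type} [AddCommGroup A] [AddCommGroup B]

theorem ker_idx [Finite B] (f : A →+ B) (K : AddSubgroup A) :
    f.ker.relIndex K ≠ 0 ∧ f.ker.relIndex K ≤ Nat.card B := by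
  rw [AddSubgroup.relIndex_ker]
  exact ⟨Nat.card_pos.ne', Nat.card_le_card_of_injective _ (K.map f).subtype_injective⟩

theorem le_idx {H H' K : AddSubgroup A} (h : H ⊓ K ≤ H') (h0 : H.relIndex K ≠ 0) :
    H'.relIndex K ≠ 0 ∧ H'.relIndex K ≤ H.relIndex K := by
  rw [← AddSubgroup.inf_relIndex_right H K] at h0 ⊢
  exact ⟨fun h1 => h0 (AddSubgroup.relIndex_eq_zero_of_le_left h h1),
    AddSubgroup.relIndex_le_of_le_left h h0⟩

theorem Nm_two {G : Type} [Group G] [DistribMulAction G A] (σ : G) (x : A) :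
    Nm σ 2 x = x + σ • x := by
  simp [Nm_apply, Finset.sum_range_succ]

theorem smul_zs {G : Type} [Group G] [DistribMulAction G A] (σ : G) (i : ℤ) (x : A) :
    σ • i • x = i • σ • x := (DistribSMul.toAddMonoidHom A σ).map_zsmul i x

theorem smul_ns {G : Type} [Group G] [DistribMulAction G A] (σ : G) (i : ℕ) (x : A) :
    σ • i • x = i • σ • x := (DistribSMul.toAddMonoidHom A σ).map_nsmul i x

end Gen

section Units

variable {L F : Type} [Field L] [NumberField L] [Field F] [NumberField F]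

theorem mem_Eu {x : Un L} : x ∈ Eu L ↔ ∀ w : Sp L, ord w x = 0 := by
  simp [Eu, AddSubgroup.mem_iInf, AddMonoidHom.mem_ker]

theorem ord_dv {x : Un L} (h : dv L 2 x = 0) {v : Sp L} (hv : ((2 : ℕ) : 𝓞 L) ∉ v.asIdeal) :
    ord v x = 0 := by
  have := dv_apply L 2 x ⟨v, hv⟩
  rw [h] at this
  exact this.symm

theorem Eu_eq : Eu L = Ru L 2 ⊓ (dv L 2).ker := by
  ext x
  rw [mem_Eu, AddSubgroup.mem_inf, mem_Ru_iff_ord, AddMonoidHom.mem_ker]
  refine ⟨fun h => ⟨fun w => h w.1, Finsupp.ext fun w => h w.1⟩, fun h w => ?_⟩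
  by_cases hw : ((2 : ℕ) : 𝓞 L) ∈ w.asIdeal
  · exact h.1 ⟨w, hw⟩
  · exact ord_dv h.2 hw

theorem dv_Eu {x : Un L} (h : x ∈ Eu L) : dv L 2 x = 0 := Finsupp.ext fun w => mem_Eu.1 h w.1

theorem mem_Eu_int {x : Un L} : x ∈ Eu L ↔ IsIntegral ℤ x.val ∧ IsIntegral ℤ x.val⁻¹ := by
  rw [Eu_eq, H79.units_eq, H79.mem_io]

theorem um_Eu (j : F →+* L) (x : Un F) : um j x ∈ Eu L ↔ x ∈ Eu F := by
  rw [mem_Eu_int, mem_Eu_int, val_um, ← map_inv₀]
  exact and_congr (isIntegral_algHom_iff j.toIntAlgHom j.injective)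
    (isIntegral_algHom_iff j.toIntAlgHom j.injective)

theorem smul_Eu (g : L ≃ₐ[ℚ] L) {x : Un L} (h : x ∈ Eu L) : g • x ∈ Eu L :=
  mem_Eu.2 fun w => by
    rw [← smul_inv_smul g w, NT2.ord_smul]
    exact mem_Eu.1 h _

omit [NumberField L] [NumberField F] in
theorem um_inj (j : F →+* L) : Function.Injective (um j) := fun x y h =>
  Un.ext (j.injective (by rw [← val_um, ← val_um, h]))

omit [NumberField L] [NumberField F] in
theorem um_surj (j : F →+* L) {x : Un L} (h : x.val ∈ j.range) : ∃ y, um j y = x := by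
  obtain ⟨y, hy⟩ := h
  exact ⟨Un.mk y fun h0 => x.val_ne (by rw [← hy, h0, map_zero]), Un.ext hy⟩

theorem um_smul (j : F →+* L) {g : F ≃ₐ[ℚ] F} {g' : L ≃ₐ[ℚ] L} (h : ∀ x, j (g x) = g' (j x))
    (x : Un F) : um j (g • x) = g' • um j x := Un.ext (h x.val)

theorem pow_comm (j : F →+* L) {g : F ≃ₐ[ℚ] F} {g' : L ≃ₐ[ℚ] L} (h : ∀ x, j (g x) = g' (j x))
    (k : ℕ) (x : F) : j ((g ^ k) x) = (g' ^ k) (j x) := by
  induction k with
  | zero => rfl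
  | succ k ih => rw [pow_succ', pow_succ', AlgEquiv.mul_apply, AlgEquiv.mul_apply, h, ih]

theorem fix_iff {g : L ≃ₐ[ℚ] L} {x : Un L} : g • x = x ↔ g x.val = x.val :=
  ⟨fun h => congrArg Un.val h, fun h => Un.ext h⟩

/-- the only prime above two and a generator -/
structure Gn (w : Sp L) (p : Un L) : Prop where
  uniq : ∀ v : Sp L, ((2 : ℕ) : 𝓞 L) ∈ v.asIdeal ↔ v = w
  one : ord w p = 1
  zero : dv L 2 p = 0

theorem Gn.mem {w : Sp L} {p x : Un L} (h : Gn w p) (h1 : dv L 2 x = 0) (h2 : ord w x = 0) :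
    x ∈ Eu L :=
  mem_Eu.2 fun v => by
    by_cases hv : ((2 : ℕ) : 𝓞 L) ∈ v.asIdeal
    · rwa [(h.uniq v).1 hv]
    · exact ord_dv h1 hv

theorem Gn.split {w : Sp L} {p x : Un L} (h : Gn w p) (h1 : dv L 2 x = 0) :
    x - ord w x • p ∈ Eu L :=
  h.mem (by rw [map_sub, map_zsmul, h1, h.zero, smul_zero, sub_zero])
    (by rw [map_sub, map_zsmul, h.one, smul_eq_mul, mul_one, sub_self])

theorem Gn.conj {w : Sp L} {p : Un L} (h : Gn w p) (hA : SAMB) (g : L ≃ₐ[ℚ] L) :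
    g • p - p ∈ Eu L := by
  have hw : g • w = w := (h.uniq _).1 (by rw [mem_smul_iff, smul_natCast]; exact (h.uniq w).2 rfl)
  refine h.mem (by rw [map_sub, hA.eqv, h.zero, smul_zero, sub_zero]) ?_
  rw [map_sub, sub_eq_zero]
  conv_lhs => rw [← hw]
  exact NT2.ord_smul _ _ g w p

theorem rank_real [IsTotallyReal L] : Units.rank L = Module.finrank ℚ L - 1 := by
  rw [Units.rank, IsTotallyReal.finrank, InfinitePlace.card_eq_nrRealPlaces_add_nrComplexPlaces,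
    IsTotallyReal.nrComplexPlaces_eq_zero, add_zero]

end Units

section Top

variable {L : Type} [Field L] [NumberField L] {d m : ℕ} {s θ : L} {σ γ : L ≃ₐ[ℚ] L}

theorem gn (hP : STP) (T : Tw L d m s θ σ γ) :
    ∃ (w : Sp L) (p : Un L), Gn w p ∧ p.val = 2 + θ ∧ σ • p = p := by
  obtain ⟨h0, w, h1, h2⟩ := hP.two L d m s θ σ γ T
  refine ⟨w, Un.mk _ h0, ⟨h1, (h2 _ rfl).1, (h2 _ rfl).2⟩, rfl, fix_iff.2 ?_⟩
  rw [Un.val_mk, map_add, T.st, map_ofNat]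

theorem top (hW : STW) (T : Tw L d m s θ σ γ) : γ ^ 2 ^ m = 1 := by
  rw [← (hW.gal L d m s θ σ γ T).2.2.2.2.1]
  exact pow_orderOf_eq_one γ

/-- the quotient of Herbrand -/
theorem quot (hC : SCY) (hW : STW) (T : Tw L d m s θ σ γ) :
    2 * hs (Eu L) (Df σ) (Nm σ 2) = hs (Eu L) (Nm σ 2) (Df σ) ∧ hs (Eu L) (Nm σ 2) (Df σ) ≠ 0 := by
  obtain ⟨F, _, _, θ', γ', C⟩ := hC.ex m
  obtain ⟨j, -, -, hj⟩ := hW.emb L F d m m s θ σ γ θ' γ' T C le_rfl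
  obtain ⟨-, -, hσ2, -, -, hne, hre⟩ := hW.gal L d m s θ σ γ T
  have hre' := (hC.real F m θ' γ' C).1
  have hσ : σ ≠ 1 := by simpa using hne 0
  let := j.toAlgebra
  have hfix : ∀ (g : Subgroup.zpowers σ) (y : L), σ y = y → g • y = y := by
    rintro ⟨g, hg⟩ y hy
    exact (Subgroup.zpowers_le (H := MulAction.stabilizer (L ≃ₐ[ℚ] L) y) (g := σ)).2 hy hg
  have : IsGaloisGroup (Subgroup.zpowers σ) F L :=
    { faithful := inferInstance
      commutes := ⟨fun g a b => by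
        rw [Algebra.smul_def, Algebra.smul_def, smul_mul',
          hfix g (algebraMap F L a) ((hj _).1 ⟨a, rfl⟩).1]⟩
      isInvariant := ⟨fun y hy => (hj y).2 ⟨hy ⟨σ, Subgroup.mem_zpowers σ⟩, by
        rw [top hW T]; rfl⟩⟩ }
  have hG : Nat.card (Subgroup.zpowers σ) = 2 := by
    rw [Nat.card_zpowers]
    exact orderOf_eq_prime (by rw [pow_two, hσ2]) hσ
  have d3 : Units.rank L = 2 * Units.rank F + (2 - 1) := by
    rw [rank_real, rank_real, T.rk, C.rk, pow_succ]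
    have := Nat.one_le_two_pow (n := m)
    omega
  have key := MP_28f2cb_lc.H85.CF.rowUQ' 2 Nat.prime_two F L (Subgroup.zpowers σ)
    ⟨σ, Subgroup.mem_zpowers σ⟩ 2 (Eu L) hG (fun h => hσ (congrArg Subtype.val h)) d3
    (fun x hx => smul_Eu σ hx) Eu_eq.le (by rw [← Eu_eq, AddSubgroup.relIndex_self]; exact one_ne_zero)
  exact key

/-- the first cohomology of the units is small -/
theorem h1_le (hW : STW) (hP : STP) (hA : SAMB) (T : Tw L d m s θ σ γ) :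
    hs (Eu L) (Nm σ 2) (Df σ) ≤ 2 ^ tt d := by
  obtain ⟨w, p, hg, -, hp⟩ := gn hP T
  obtain ⟨hf, hc, -⟩ := hP.fin L d m s θ σ γ T
  have h1 := top hW T
  have hσ2 : σ * σ = 1 := (hW.gal L d m s θ σ γ T).2.2.1
  set R := {w : Pr L 2 | (d : 𝓞 L) ∈ w.1.asIdeal} with hR
  have : Finite R := hf
  let π : Un L →+ (R → ZMod 2) :=
    AddMonoidHom.pi fun v => (Int.castAddHom (ZMod 2)).comp (ord v.1.1)
  have hB : ((Eu L).comap (Df σ)).map (Df σ) = Eu L ⊓ (Nm σ 2).ker := by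
    ext x
    constructor
    · rintro ⟨y, hy, rfl⟩
      refine ⟨hy, ?_⟩
      show Nm σ 2 (Df σ y) = 0
      rw [Nm_two, Df_apply, smul_sub, smul_smul, hσ2, one_smul]
      abel
    · rintro ⟨hx, hx'⟩
      obtain ⟨δ, -, e⟩ := hA.h90 L d m m s θ σ γ T x (by rw [h1, one_smul])
        (by rw [← Nm_two]; exact hx')
      have e' : Df σ (-δ) = x := by
        rw [e, Df_apply, smul_neg]
        abel
      exact ⟨-δ, by rwa [SetLike.mem_coe, AddSubgroup.mem_comap, e'], e'⟩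
  rw [hs, ← hB, ← AddSubgroup.relIndex_comap]
  obtain ⟨k1, k2⟩ := ker_idx π ((Eu L).comap (Df σ))
  refine (le_idx ?_ k1).2.trans (k2.trans ?_)
  · rintro δ ⟨hδ, hE⟩
    have hE' : σ • δ - δ ∈ Eu L := hE
    have hD : σ • dv L 2 δ = dv L 2 δ := by
      rw [← hA.eqv, ← sub_eq_zero, ← map_sub]
      exact dv_Eu hE'
    obtain ⟨k, ⟨i, hk⟩, x, hx, e⟩ := mem_Od.1 ((hA.amb L d m m s θ σ γ T le_rfl (dv L 2 δ)
      (by rw [Iv, mem_Fx, h1, one_smul]) hD).1 fun v hv => by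
        have := congrFun ((AddMonoidHom.mem_ker).1 hδ) ⟨v, hv⟩
        exact (ZMod.intCast_eq_zero_iff_even).1 this)
    have hx' : σ • x = x := hx.2
    have hv := hg.split (x := k • δ - x) (by rw [map_sub, map_nsmul, e, sub_self])
    refine ⟨(k • δ - x - ord w (k • δ - x) • p) + i • (σ • δ - δ),
      add_mem hv (nsmul_mem hE' i), ?_⟩
    simp only [Df_apply, smul_add, smul_sub, smul_zs, smul_ns, hx', hp, smul_smul σ σ, hσ2,
      one_smul, hk]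
    generalize σ • δ = δ'
    module
  · rw [Nat.card_fun, Nat.card_zmod]
    exact Nat.pow_le_pow_right two_pos hc

theorem unit_idx (hC : SCY) (hW : STW) (hP : STP) (hA : SAMB) (T : Tw L d m s θ σ γ) :
    ((Eu L).map (Nm σ 2)).relIndex (Eu L ⊓ Fx (Un L) σ) ≠ 0 ∧
      ((Eu L).map (Nm σ 2)).relIndex (Eu L ⊓ Fx (Un L) σ) ≤ 2 ^ tt d := by
  obtain ⟨q1, q2⟩ := quot hC hW T
  have q3 := h1_le hW hP hA T
  have e : Fx (Un L) σ = (Df σ).ker := AddSubgroup.ext fun x => sub_eq_zero.symm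
  rw [e]
  change hs (Eu L) (Df σ) (Nm σ 2) ≠ 0 ∧ hs (Eu L) (Df σ) (Nm σ 2) ≤ _
  omega

theorem idx_top (hC : SCY) (hW : STW) (hP : STP) (hA : SAMB) (T : Tw L d m s θ σ γ) :
    ((dv L 2).ker.map (Nm σ 2)).relIndex ((dv L 2).ker ⊓ Fx (Un L) σ) ≠ 0 ∧
      ((dv L 2).ker.map (Nm σ 2)).relIndex ((dv L 2).ker ⊓ Fx (Un L) σ) ≤ 2 ^ (tt d + 1) := by
  obtain ⟨w, p, hg, -, hp⟩ := gn hP T
  obtain ⟨u1, u2⟩ := unit_idx hC hW hP hA T
  have hσ2 : σ * σ = 1 := (hW.gal L d m s θ σ γ T).2.2.1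
  set N := (dv L 2).ker.map (Nm σ 2) with hN
  set C0 := Eu L ⊓ Fx (Un L) σ with hC0
  set C := (dv L 2).ker ⊓ Fx (Un L) σ with hC'
  have hle : N ⊔ C0 ≤ C := by
    refine sup_le ?_ fun x hx => ⟨dv_Eu hx.1, hx.2⟩
    rintro _ ⟨x, hx, rfl⟩
    have hx' : dv L 2 x = 0 := hx
    refine ⟨?_, ?_⟩
    · show dv L 2 (Nm σ 2 x) = 0
      rw [Nm_two, map_add, hA.eqv, hx', smul_zero, add_zero]
    · show σ • Nm σ 2 x = Nm σ 2 x
      rw [Nm_two, smul_add, smul_smul, hσ2, one_smul, add_comm]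
  obtain ⟨a1, a2⟩ := le_idx (H' := N) (inf_le_left.trans
    (AddSubgroup.map_mono fun x hx => (AddMonoidHom.mem_ker).2 (dv_Eu hx))) u1
  obtain ⟨k1, k2⟩ := ker_idx ((Int.castAddHom (ZMod 2)).comp (ord w)) C
  obtain ⟨b1, b2⟩ := le_idx (H' := N ⊔ C0) (by
    rintro x ⟨hx, h1, h2⟩
    obtain ⟨i, hi⟩ : Even (ord w x) := (ZMod.intCast_eq_zero_iff_even).1 hx
    have h2' : σ • x = x := h2
    refine AddSubgroup.mem_sup.2 ⟨Nm σ 2 (i • p), ⟨i • p, ?_, rfl⟩, x - ord w x • p,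
      ⟨hg.split h1, ?_⟩, ?_⟩
    · show dv L 2 (i • p) = 0
      rw [map_zsmul, hg.zero, smul_zero]
    · show σ • (x - ord w x • p) = _
      rw [smul_sub, smul_zs, h2', hp]
    · rw [Nm_two, smul_zs, hp, hi, add_smul]
      abel) k1
  rw [Nat.card_zmod] at k2
  rw [← AddSubgroup.relIndex_mul_relIndex N (N ⊔ C0) C le_sup_left hle,
    AddSubgroup.relIndex_sup_left, pow_succ]
  exact ⟨mul_ne_zero a1 b1, Nat.mul_le_mul (a2.trans u2) (b2.trans k2)⟩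

end Top

theorem even_ord (hC : SCY) {F : Type} [Field F] [NumberField F] {m : ℕ} {θ : F}
    {γ : F ≃ₐ[ℚ] F} (C : Cy F (m + 1) θ γ) {w : Sp F} (hw : ((2 : ℕ) : 𝓞 F) ∈ w.asIdeal)
    {x : Un F} (hx : γ ^ 2 ^ m • x = x) : Even (ord w x) := by
  obtain ⟨K, _, _, θ0, γ0, C0⟩ := hC.ex m
  obtain ⟨j, -, -, hj⟩ := hC.emb K F m (m + 1) θ0 γ0 θ γ C0 C (Nat.le_succ m)
  obtain ⟨y, rfl⟩ := um_surj j ((hj _).2 (fix_iff.1 hx))
  obtain ⟨-, w0, a1, -, a2, -⟩ := hC.two K m θ0 γ0 C0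
  obtain ⟨-, w1, b1, -, b2, -⟩ := hC.two F (m + 1) θ γ C
  let := j.toAlgebra
  have hi : ∀ z : Un K, ord w (um j z) = w.asIdeal.ramificationIdx (𝓞 K) * ord (und K w) z :=
    fun z => NT2.ord_inc K F w z
  have h2 := hi (Un.mk 2 two_ne_zero)
  obtain rfl : w = w1 := (b1 w).1 hw
  rw [(a1 (und K w)).1 ((NT2.nat_mem K 2 w).2 hw), a2 (Un.mk 2 two_ne_zero) rfl,
    b2 _ (by rw [val_um, Un.val_mk, map_ofNat]), pow_succ'] at h2
  rw [hi, ← mul_right_cancel₀ (pow_ne_zero m two_ne_zero) h2]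
  exact even_two.mul_right _

theorem up_top (hC : SCY) (hU : SUN) (hW : STW) (hP : STP) (hA : SAMB) {L : Type} [Field L]
    [NumberField L] {d m : ℕ} {s θ : L} {σ γ : L ≃ₐ[ℚ] L} (T : Tw L d (m + 1) s θ σ γ)
    (ht : tt d ≤ 2 ^ m) (u : Un L) (h1 : dv L 2 u = 0) (h2 : σ • u = u) (h3 : γ ^ 2 ^ m • u = u) :
    ∃ ε : Un L, dv L 2 ε = 0 ∧ u = ε + σ • ε := by
  obtain ⟨w, p, hg, hv, hp⟩ := gn hP T
  obtain ⟨-, u2⟩ := unit_idx hC hW hP hA T
  obtain ⟨F, _, _, θ', γ', C⟩ := hC.ex (m + 1)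
  obtain ⟨j, hθ, hγ, hj⟩ := hW.emb L F d (m + 1) (m + 1) s θ σ γ θ' γ' T C le_rfl
  have hcm : σ * γ = γ * σ := (hW.gal L d _ s θ σ γ T).2.2.2.1
  have hr : ∀ x : Un L, σ • x = x → ∃ y, um j y = x := fun x hx =>
    um_surj j ((hj _).2 ⟨fix_iff.1 hx, by rw [top hW T]; rfl⟩)
  have hf : ∀ y : Un F, σ • um j y = um j y := fun y => fix_iff.2 ((hj _).1 ⟨y.val, rfl⟩).1
  obtain ⟨h0, w', a1, a2, -⟩ := hC.two F (m + 1) θ' γ' C
  set p' := Un.mk _ h0 with hp'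
  have hg' : Gn w' p' := ⟨a1, (a2 _ rfl).1, (a2 _ rfl).2⟩
  have hpp : um j p' = p := Un.ext (by
    rw [val_um, hv, hp', Un.val_mk, map_add, map_ofNat, hθ, Nat.sub_self]
    rfl)
  obtain ⟨u0, rfl⟩ := hr u h2
  have h3' : γ' ^ 2 ^ m • u0 = u0 :=
    um_inj j (by rw [um_smul j (pow_comm j hγ _), h3])
  have hv0 : u0 - ord w (um j u0) • p' ∈ Eu F := by
    rw [← um_Eu j, map_sub, map_zsmul, hpp]
    exact hg.split h1
  have he : ord w (um j u0) = ord w' u0 := by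
    have := mem_Eu.1 hv0 w'
    rw [map_sub, map_zsmul, hg'.one, smul_eq_mul, mul_one, sub_eq_zero] at this
    exact this.symm
  obtain ⟨i, hi⟩ := even_ord hC C ((a1 _).2 rfl) h3'
  rw [he, hi] at hv0
  have hm : (Eu F).map (um j) = Eu L ⊓ Fx (Un L) σ := by
    ext x
    constructor
    · rintro ⟨y, hy, rfl⟩
      exact ⟨(um_Eu j y).2 hy, hf y⟩
    · rintro ⟨hx, hx'⟩
      obtain ⟨y, rfl⟩ := hr x hx'
      exact ⟨y, (um_Eu j y).1 hx, rfl⟩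
  obtain ⟨⟨ε, hε, e⟩, -⟩ := hU.uni F (m + 1) θ' γ' C
    (((Eu L).map (Nm σ 2)).comap (um j) ⊓ Eu F) (tt d) m inf_le_right
    (fun v hv => ⟨⟨um j v, (um_Eu j v).2 hv, by rw [Nm_two, hf, map_nsmul, two_nsmul]⟩,
      nsmul_mem hv 2⟩)
    (by
      rintro v ⟨⟨ε, hε, e⟩, hv⟩
      refine ⟨⟨γ • ε, smul_Eu γ hε, ?_⟩, smul_Eu γ' hv⟩
      rw [um_smul j hγ, ← e, Nm_two, Nm_two, smul_add, smul_smul, smul_smul, hcm])
    (by rwa [AddSubgroup.inf_relIndex_right, AddSubgroup.relIndex_comap, hm])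
    (by rw [pow_succ]; omega) _ hv0
    ⟨-(i • (γ' ^ 2 ^ m • p' - p')), neg_mem (zsmul_mem (hg'.conj hA _) i), by
      rw [smul_sub, smul_zs, h3']
      generalize γ' ^ 2 ^ m • p' = q
      module⟩
  refine ⟨ε + i • p, by rw [map_add, map_zsmul, dv_Eu hε, hg.zero, smul_zero, add_zero], ?_⟩
  rw [Nm_two, map_sub, map_zsmul, hpp, eq_sub_iff_add_eq] at e
  rw [← e, smul_add, smul_zs, hp]
  generalize σ • ε = ε'
  module

/-- passage to a model of the layer -/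
theorem model (hW : STW) (hP : STP) {L : Type} [Field L] [NumberField L] {d M m : ℕ} {s θ : L}
    {σ γ : L ≃ₐ[ℚ] L} (T : Tw L d M s θ σ γ) (hm : m ≤ M) :
    ∃ (L' : Type) (_ : Field L') (_ : NumberField L') (s' θ' : L') (σ' γ' : L' ≃ₐ[ℚ] L')
      (j : L' →+* L), Tw L' d m s' θ' σ' γ' ∧ (∀ x, um j (σ' • x) = σ • um j x) ∧
      (∀ k x, um j (γ' ^ k • x) = γ ^ k • um j x) ∧
      (∀ y, (∃ x, um j x = y) ↔ γ ^ 2 ^ m • y = y) ∧
      ∀ x, dv L 2 (um j x) = 0 ↔ dv L' 2 x = 0 := by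
  obtain ⟨L', _, _, s', θ', σ', γ', T'⟩ := hW.ex d m T.sqf T.md
  obtain ⟨j, -, -, hσ, hγ, hj⟩ := hW.sub L L' d M m s θ σ γ s' θ' σ' γ' T T' hm
  obtain ⟨κ, k1, -, k2, -⟩ := hP.pull L L' d M m s θ σ γ s' θ' σ' γ' j T T' hm hσ hγ hj
  refine ⟨L', _, _, s', θ', σ', γ', j, T', um_smul j hσ, fun k => um_smul j (pow_comm j hγ k),
    fun y => ⟨?_, fun h => um_surj j ((hj _).2 (fix_iff.1 h))⟩, fun x => ?_⟩
  · rintro ⟨x, rfl⟩
    exact fix_iff.2 ((hj _).1 ⟨x.val, rfl⟩)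
  · rw [← k2, map_eq_zero_iff κ k1]

end HERB

open HERB in
theorem rowHERB : OfHERB := by
  intro hC hU hW hP hA
  refine ⟨fun L _ _ d M m s θ σ γ T hm => ?_, fun L _ _ d M m s θ σ γ T hm ht u h1 h2 h3 => ?_⟩
  · obtain ⟨L', _, _, s', θ', σ', γ', j, T', hσ, -, hj, hd⟩ := model hW hP T hm
    have e1 : (dv L 2).ker ⊓ Fx (Un L) (γ ^ 2 ^ m) = (dv L' 2).ker.map (um j) := by
      ext y
      constructor
      · rintro ⟨h1, h2⟩
        obtain ⟨x, rfl⟩ := (hj y).2 h2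
        exact ⟨x, (hd x).1 h1, rfl⟩
      · rintro ⟨x, hx, rfl⟩
        exact ⟨(hd x).2 hx, (hj _).1 ⟨x, rfl⟩⟩
    have e2 : ((dv L' 2).ker.map (um j)).map (Nm σ 2) =
        ((dv L' 2).ker.map (Nm σ' 2)).map (um j) := by
      rw [AddSubgroup.map_map, AddSubgroup.map_map]
      congr 1
      refine AddMonoidHom.ext fun x => ?_
      simp only [AddMonoidHom.comp_apply, Nm_two, map_add, hσ]
    have e3 : (dv L' 2).ker.map (um j) ⊓ Fx (Un L) σ =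
        ((dv L' 2).ker ⊓ Fx (Un L') σ').map (um j) := by
      ext y
      constructor
      · rintro ⟨⟨x, hx, rfl⟩, h2⟩
        exact ⟨x, ⟨hx, um_inj j ((hσ x).trans h2)⟩, rfl⟩
      · rintro ⟨x, ⟨hx, hx'⟩, rfl⟩
        exact ⟨⟨x, hx, rfl⟩, (hσ x).symm.trans (congrArg (um j) hx')⟩
    rw [e1, e2, e3, AddSubgroup.relIndex_map_map_of_injective _ _ (um_inj j)]
    exact idx_top hC hW hP hA T'
  · obtain ⟨L', _, _, s', θ', σ', γ', j, T', hσ, hγ, hj, hd⟩ := model hW hP T hm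
    obtain ⟨x, rfl⟩ := (hj u).2 (by rw [pow_succ, pow_mul, pow_two, mul_smul, h3, h3])
    obtain ⟨ε, a1, a2⟩ := up_top hC hU hW hP hA T' ht x ((hd x).1 h1)
      (um_inj j ((hσ x).trans h2)) (um_inj j ((hγ _ x).trans h3))
    exact ⟨um j ε, (hd ε).2 a1, (hj _).1 ⟨ε, rfl⟩, by rw [a2, map_add, hσ]⟩

end Pool.Agent.MP_1246c0_nt.H12
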