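import Pool.Agent.MP_1246c0_nt.H25.SpecA

/-! Few units of the quadratic field are norms of units. -/

namespace Pool.Agent.MP_1246c0_nt.H25

open NumberField IsDedekindDomain Pool.Agent.MP_db5b97_nt.H85 Pool.Agent.MP_1246c0_nt.H12 WithZero

namespace LNM

theorem tw_map {R S : Type} [CommRing R] [CommRing S] (f : R →+* S) (M : ℕ) (x : R) :
    f (tw^[M] x) = tw^[M] (f x) := by
  induction M generalizing x with
  | zero => rfl
  | succ M ih =>
    rw [Function.iterate_succ_apply, Function.iterate_succ_apply, ih]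
    simp [tw, map_ofNat]

theorem tw_root {K : Type} [Field K] (ζ : K) (h : ζ ≠ 0) (M : ℕ) :
    tw^[M] (ζ + ζ⁻¹) = ζ ^ 2 ^ M + (ζ ^ 2 ^ M)⁻¹ := by
  induction M with
  | zero => simp
  | succ M ih =>
    have h' : ζ ^ 2 ^ M ≠ 0 := pow_ne_zero _ h
    rw [Function.iterate_succ_apply', ih, tw, pow_succ 2 M, pow_mul]
    field_simp
    ring

theorem tw_int {L : Type} [Field L] (M : ℕ) (x : L) (h : IsIntegral ℤ (tw^[M] x)) :
    IsIntegral ℤ x := by
  induction M generalizing x with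
  | zero => exact h
  | succ M ih =>
    rw [Function.iterate_succ_apply] at h
    have h1 := ih _ h
    have h2 : IsIntegral ℤ (2 : L) := by
      simpa using isIntegral_algebraMap (R := ℤ) (A := L) (x := 2)
    have e : x ^ 2 = tw x + 2 := by simp [tw]
    exact IsIntegral.of_pow two_pos (e ▸ h1.add h2)

/-- residue fields of the layer -/
theorem card_sq {κ : Type} [Field κ] [Fintype κ] (K : Type) [Field K] [IsAlgClosed K]
    [Algebra κ K] (h2 : (2 : κ) ≠ 0) (M : ℕ) (t : κ)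
    (ht : tw^[M] t = 0) : Fintype.card κ ^ 2 ≡ 1 [MOD 2 ^ (M + 2)] := by
  have h2' : (2 : K) ≠ 0 := by
    have := (map_ne_zero (algebraMap κ K)).2 h2
    rwa [map_ofNat] at this
  obtain ⟨r, hr⟩ := IsAlgClosed.exists_pow_nat_eq ((algebraMap κ K t) ^ 2 - 4) two_pos
  set T := algebraMap κ K t with hT
  set ζ : K := (T + r) / 2 with hζ
  have e1 : ζ ^ 2 - T * ζ + 1 = 0 := by
    rw [hζ]
    field_simp
    linear_combination hr
  have h0 : ζ ≠ 0 := by
    intro h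
    rw [h] at e1
    simp at e1
  have e2 : ζ⁻¹ = T - ζ := by
    field_simp
    linear_combination e1
  have e3 : ζ ^ 2 ^ M + (ζ ^ 2 ^ M)⁻¹ = 0 := by
    rw [← tw_root ζ h0, e2, add_sub_cancel, hT, ← tw_map, ht, map_zero]
  have e4 : ζ ^ 2 ^ (M + 1) = -1 := by
    have h' : ζ ^ 2 ^ M ≠ 0 := pow_ne_zero _ h0
    rw [pow_succ 2 M, pow_mul]
    field_simp at e3
    linear_combination e3
  have ho : orderOf ζ = 2 ^ (M + 2) := by
    refine orderOf_eq_prime_pow (p := 2) (n := M + 1) ?_ ?_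
    · rw [e4]
      intro h
      exact h2' (by linear_combination -h)
    · rw [pow_succ 2 (M + 1), pow_mul, e4]
      norm_num
  set q := Fintype.card κ with hq
  have e5 : (ζ ^ q) ^ 2 - T * ζ ^ q + 1 = 0 := by
    have := congrArg (FiniteField.frobeniusAlgHom κ K) e1
    rw [map_add, map_sub, map_mul, map_pow, map_one, map_zero, hT, AlgHom.commutes] at this
    exact this
  have e6 : (ζ ^ q) ^ q = ζ := by
    have : (ζ ^ q - ζ) * (ζ ^ q - ζ⁻¹) = 0 := by
      rw [e2]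
      linear_combination e5 - e1
    rcases mul_eq_zero.1 this with h | h
    · rw [sub_eq_zero.1 h, sub_eq_zero.1 h]
    · rw [sub_eq_zero.1 h, inv_pow, sub_eq_zero.1 h, inv_inv]
  have hq1 : 1 ≤ q ^ 2 := Nat.one_le_pow _ _ Fintype.card_pos
  have e7 : ζ ^ (q ^ 2 - 1) = 1 := by
    have : ζ ^ (q ^ 2 - 1) * ζ = 1 * ζ := by
      rw [← pow_succ, Nat.sub_add_cancel hq1, sq, pow_mul, e6, one_mul]
    exact mul_right_cancel₀ h0 this
  exact ((Nat.modEq_iff_dvd' hq1).2 (ho ▸ orderOf_dvd_of_pow_eq_one e7)).symm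

variable {L : Type} [Field L] [NumberField L]

/-- norms of odd ideals -/
theorem norm_sq (M : ℕ) (t : 𝓞 L) (ht : tw^[M] t = 0) (I : Ideal (𝓞 L)) (h0 : I ≠ ⊥)
    (hI : ∀ w : Sp L, ((2 : ℕ) : 𝓞 L) ∈ w.asIdeal → ¬I ≤ w.asIdeal) :
    Ideal.absNorm I ^ 2 ≡ 1 [MOD 2 ^ (M + 2)] := by
  induction I using UniqueFactorizationMonoid.induction_on_prime with
  | h₁ => exact absurd rfl h0
  | h₂ I hu =>
    rw [Ideal.isUnit_iff.1 hu, Ideal.absNorm_top, one_pow]
  | h₃ a p ha hp ih =>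
    have hpp : p.IsPrime := Ideal.isPrime_of_prime hp
    have hp0 : p ≠ ⊥ := hp.ne_zero
    have h2 : ((2 : ℕ) : 𝓞 L) ∉ p := fun h => hI ⟨p, hpp, hp0⟩ h Ideal.mul_le_left
    have hm : p.IsMaximal := hpp.isMaximal hp0
    let := Ideal.Quotient.field p
    have : Finite (𝓞 L ⧸ p) := p.finiteQuotientOfFreeOfNeBot hp0
    let := Fintype.ofFinite (𝓞 L ⧸ p)
    have h3 : (2 : 𝓞 L ⧸ p) ≠ 0 := by
      intro h
      refine h2 (Ideal.Quotient.eq_zero_iff_mem.1 ?_)
      rw [map_natCast]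
      exact_mod_cast h
    have h4 := card_sq (AlgebraicClosure (𝓞 L ⧸ p)) h3 M (Ideal.Quotient.mk p t) (by rw [← tw_map, ht, map_zero])
    have h5 : Ideal.absNorm p = Fintype.card (𝓞 L ⧸ p) := by
      rw [Ideal.absNorm_apply, Submodule.cardQuot_apply, Nat.card_eq_fintype_card]
    rw [map_mul, mul_pow, h5]
    simpa using h4.mul (ih ha fun w hw h => hI w hw (Ideal.mul_le_right.trans h))

theorem coe_sm (g : L ≃ₐ[ℚ] L) (x : 𝓞 L) : ((g • x : 𝓞 L) : L) = g x := rfl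

/-- the norm as a product -/
theorem norm_prod [IsGalois ℚ L] (σ γ : L ≃ₐ[ℚ] L) (N : ℕ) (hN : orderOf γ = N) (hN0 : 0 < N)
    (hrk : Module.finrank ℚ L = N + N) (hg : ∀ g : L ≃ₐ[ℚ] L, ∃ k : ℕ, g = γ ^ k ∨ g = σ * γ ^ k)
    (x : 𝓞 L) : ((Algebra.norm ℤ x : ℤ) : 𝓞 L) =
      (∏ k ∈ Finset.range N, γ ^ k • x) * σ • ∏ k ∈ Finset.range N, γ ^ k • x := by
  let e : Fin N ⊕ Fin N → (L ≃ₐ[ℚ] L) := Sum.elim (fun k => γ ^ (k : ℕ)) fun k => σ * γ ^ (k : ℕ)
  have hs : Function.Surjective e := by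
    intro g
    obtain ⟨k, hk⟩ := hg g
    have hk' : γ ^ (k % N) = γ ^ k := by rw [← hN, pow_mod_orderOf]
    rcases hk with hk | hk
    · exact ⟨Sum.inl ⟨k % N, Nat.mod_lt _ hN0⟩, by simp [e, hk, hk']⟩
    · exact ⟨Sum.inr ⟨k % N, Nat.mod_lt _ hN0⟩, by simp [e, hk, hk']⟩
  have hb : Function.Bijective e := by
    refine (Fintype.bijective_iff_surjective_and_card e).2 ⟨hs, ?_⟩
    rw [← Nat.card_eq_fintype_card (α := L ≃ₐ[ℚ] L), IsGalois.card_aut_eq_finrank, hrk]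
    simp
  have h1 := Algebra.norm_eq_prod_automorphisms ℚ (x : L)
  rw [← hb.prod_comp fun g => g (x : L), Fintype.prod_sum_type, ← Algebra.coe_norm_int] at h1
  apply RingOfIntegers.coe_injective
  rw [map_mul, Finset.smul_prod', map_prod, map_prod, Finset.prod_range, Finset.prod_range,
    map_intCast]
  rw [map_intCast] at h1
  exact h1

open scoped Pointwise in
theorem smul_pow_mem (g : L ≃ₐ[ℚ] L) (v : Sp L) (N : ℕ) {x : 𝓞 L} (hx : x ∈ v.asIdeal ^ N) :
    g • x ∈ (g • v).asIdeal ^ N := by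
  have e : (g • v).asIdeal = g • v.asIdeal := rfl
  rw [e, ← smul_pow']
  exact Ideal.smul_mem_pointwise_smul g x _ hx

theorem prod_cong {R ι : Type} [CommRing R] (I : Ideal R) (s : Finset ι) (f g : ι → R)
    (h : ∀ i ∈ s, f i - g i ∈ I) : ∏ i ∈ s, f i - ∏ i ∈ s, g i ∈ I := by
  rw [← Ideal.Quotient.eq, map_prod, map_prod]
  exact Finset.prod_congr rfl fun i hi => Ideal.Quotient.eq.2 (h i hi)

theorem nm_cong (γ : L ≃ₐ[ℚ] L) (v : Sp L) (hv : γ • v = v) (N n : ℕ) {x y : 𝓞 L}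
    (h : x - y ∈ v.asIdeal ^ N) :
    ∏ k ∈ Finset.range n, γ ^ k • x - ∏ k ∈ Finset.range n, γ ^ k • y ∈ v.asIdeal ^ N := by
  refine prod_cong _ _ _ _ fun k _ => ?_
  have hk : γ ^ k • v = v := pow_mem (MulAction.mem_stabilizer_iff.2 hv) k
  have := smul_pow_mem (γ ^ k) v N h
  rwa [hk, smul_sub] at this

/-- the norm of an odd element is congruent to an odd norm from the whole field -/
theorem nm_approx [IsGalois ℚ L] (σ γ : L ≃ₐ[ℚ] L) (M : ℕ) (hN : orderOf γ = 2 ^ M)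
    (hrk : Module.finrank ℚ L = 2 ^ (M + 1))
    (hg : ∀ g : L ≃ₐ[ℚ] L, ∃ k : ℕ, g = γ ^ k ∨ g = σ * γ ^ k) (hσ : σ * σ = 1)
    (t : 𝓞 L) (ht : tw^[M] t = 0) (hc : Nat.card (Pl L 2) ≤ 2)
    (hw : ∀ w : Pl L 2, γ • w = w ∧ σ • w ≠ w) (w : Pl L 2) (u : 𝓞 L) (hu : u ∉ w.1.asIdeal)
    (N : ℕ) (hN0 : N ≠ 0) : ∃ n : ℤ, (2 : ℤ) ^ (M + 2) ∣ n ^ 2 - 1 ∧
      ∏ k ∈ Finset.range (2 ^ M), γ ^ k • u - n ∈ w.1.asIdeal ^ N := by
  classical
  set w' : Pl L 2 := σ • w with hw'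
  have hne : w' ≠ w := (hw w).2
  have hne' : w.1.asIdeal ≠ w'.1.asIdeal := fun h =>
    hne (Subtype.ext (HeightOneSpectrum.ext h.symm))
  have hcop : IsCoprime (w.1.asIdeal ^ N) (w'.1.asIdeal ^ N) :=
    (Ideal.isCoprime_iff_sup_eq.2 (w.1.isMaximal.coprime_of_ne w'.1.isMaximal hne')).pow
  obtain ⟨a, ha, b, hb, hab⟩ := Ideal.isCoprime_iff_exists.1 hcop
  set x := u * b + a with hx
  have h1 : x - u ∈ w.1.asIdeal ^ N := by
    have : x - u = (1 - u) * a := by rw [hx]; linear_combination u * hab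
    rw [this]
    exact Ideal.mul_mem_left _ _ ha
  have h2 : x - 1 ∈ w'.1.asIdeal ^ N := by
    have : x - 1 = (u - 1) * b := by rw [hx]; linear_combination hab
    rw [this]
    exact Ideal.mul_mem_left _ _ hb
  have h3 : x ∉ w.1.asIdeal := fun h =>
    hu (by simpa using sub_mem h (Ideal.pow_le_self hN0 h1))
  have h4 : x ∉ w'.1.asIdeal := fun h =>
    w'.1.isPrime.ne_top ((Ideal.eq_top_iff_one _).2
      (by simpa using sub_mem h (Ideal.pow_le_self hN0 h2)))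
  have h5 : ∀ v : Pl L 2, v = w ∨ v = w' := by
    intro v
    by_contra hv
    push Not at hv
    have := Pl_finite (F := L) (l := 2) two_ne_zero
    let := Fintype.ofFinite (Pl L 2)
    have h6 := Finset.card_le_univ ({v, w, w'} : Finset (Pl L 2))
    rw [Finset.card_eq_three.2 ⟨v, w, w', hv.1, hv.2, hne.symm, rfl⟩,
      ← Nat.card_eq_fintype_card] at h6
    omega
  have hx0 : x ≠ 0 := fun h => h3 (h ▸ zero_mem _)
  have h6 := norm_sq M t ht (Ideal.span {x}) (by simpa using hx0) fun v hv h => by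
    have hm := (Ideal.span_singleton_le_iff_mem _).1 h
    rcases h5 ⟨v, hv⟩ with e | e
    · exact h3 (e ▸ hm)
    · exact h4 (e ▸ hm)
  rw [Ideal.absNorm_span_singleton] at h6
  refine ⟨Algebra.norm ℤ x, ?_, ?_⟩
  · have := (Nat.modEq_iff_dvd.1 h6.symm)
    push_cast at this
    rwa [sq_abs] at this
  · rw [norm_prod σ γ (2 ^ M) hN (by positivity) (by rw [hrk]; ring) hg x]
    have g1 := nm_cong γ w.1 (congrArg (fun v : Pl L 2 => v.1) (hw w).1) N (2 ^ M) h1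
    have g2 := nm_cong γ w'.1 (congrArg (fun v : Pl L 2 => v.1) (hw w').1) N (2 ^ M) h2
    have g3 := smul_pow_mem σ w'.1 N g2
    have g4 : σ • w'.1 = w.1 := by
      have : σ • w' = w := by rw [hw', smul_smul, hσ, one_smul]
      exact congrArg (fun v : Pl L 2 => v.1) this
    simp only [smul_one, Finset.prod_const_one, smul_sub] at g3
    rw [g4] at g3
    set X := ∏ k ∈ Finset.range (2 ^ M), γ ^ k • x
    set U := ∏ k ∈ Finset.range (2 ^ M), γ ^ k • u
    have : U - X * σ • X = -(X - U) - X * (σ • X - 1) := by ring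
    rw [this]
    exact sub_mem (neg_mem g1) (Ideal.mul_mem_left _ _ g3)

section Val

variable {K Γ : Type} [Field K] [LinearOrderedCommGroupWithZero Γ] (v : Valuation K Γ)

theorem val_odd {η : K} (h2 : v 2 < 1) (h : v (η - 1) < 1) (h0 : v (η - 1) ≠ 0) (k : ℕ) :
    v (η ^ (2 * k + 1) - 1) = v (η - 1) := by
  have h1 : v η = 1 := by
    have := v.map_one_add_of_lt h
    rwa [add_sub_cancel] at this
  have h3 : v (η + 1) < 1 := by
    have : η + 1 = (η - 1) + 2 := by ring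
    rw [this]
    exact v.map_add_lt h h2
  induction k with
  | zero => simp
  | succ k ih =>
    have e : η ^ (2 * (k + 1) + 1) - 1 = η ^ 2 * (η ^ (2 * k + 1) - 1) + (η - 1) * (η + 1) := by
      ring
    have e1 : v (η ^ 2 * (η ^ (2 * k + 1) - 1)) = v (η - 1) := by
      rw [map_mul, map_pow, h1, one_pow, one_mul, ih]
    rw [e, v.map_add_eq_of_lt_left, e1]
    rw [e1, map_mul]
    exact mul_lt_of_lt_one_right (zero_lt_iff.2 h0) h3

theorem val_two {η : K} (h2 : v 2 < 1) (h : v (η - 1) < v 2) (j : ℕ) :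
    v (η ^ 2 ^ j - 1) = v (η - 1) * v 2 ^ j := by
  induction j with
  | zero => simp
  | succ j ih =>
    have e : η ^ 2 ^ (j + 1) - 1 = (η ^ 2 ^ j - 1) * (2 + (η ^ 2 ^ j - 1)) := by
      rw [pow_succ 2 j, pow_mul]
      ring
    have h3 : v (η ^ 2 ^ j - 1) < v 2 := by
      rw [ih]
      exact lt_of_le_of_lt (mul_le_of_le_one_right' (pow_le_one' h2.le j)) h
    rw [e, map_mul, v.map_add_eq_of_lt_left h3, ih, pow_succ, mul_assoc]

end Val

theorem pell (d : ℕ) (hd : 0 < d) (hs : ¬IsSquare (d : ℤ)) :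
    ∃ (x y : ℤ) (a m : ℕ), x ^ 2 - d * y ^ 2 = 1 ∧ Odd m ∧ y.natAbs = 2 ^ (a + 1) * m := by
  obtain ⟨x, y, h, hy⟩ := Pell.exists_of_not_isSquare (by exact_mod_cast hd) hs
  have hx : x ≠ 0 := by
    rintro rfl
    have : (0 : ℤ) ≤ d * y ^ 2 := by positivity
    simp at h
    omega
  obtain ⟨a, m, hm, e⟩ := Nat.exists_eq_two_pow_mul_odd
    (Int.natAbs_ne_zero.2 (mul_ne_zero hx hy))
  refine ⟨x ^ 2 + d * y ^ 2, 2 * (x * y), a, m, ?_, hm, ?_⟩
  · linear_combination (x ^ 2 - d * y ^ 2 + 1) * h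
  · rw [Int.natAbs_mul, e]
    simp
    ring

theorem exists_pl : Nonempty (Pl L 2) := by
  have : (Ideal.span {(2 : ℤ)}).IsMaximal :=
    Ideal.IsPrime.isMaximal ((Ideal.span_singleton_prime two_ne_zero).2 Int.prime_two)
      (by simp)
  obtain ⟨Q, hQ, e⟩ := Ideal.exists_ideal_over_maximal_of_isIntegral (S := 𝓞 L)
    (Ideal.span {(2 : ℤ)}) (by
      rw [(RingHom.injective_iff_ker_eq_bot _).1 (FaithfulSMul.algebraMap_injective ℤ (𝓞 L))]
      exact bot_le)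
  have h2 : ((2 : ℕ) : 𝓞 L) ∈ Q := by
    have : (2 : ℤ) ∈ Q.comap (algebraMap ℤ (𝓞 L)) := e ▸ Ideal.mem_span_singleton_self _
    simpa [Ideal.mem_comap] using this
  exact ⟨⟨⟨Q, hQ.isPrime, fun h => by simp [h] at h2⟩, h2⟩⟩

theorem mem_Eu {x : Un L} : x ∈ Eu L ↔ ∀ w : Sp L, w.valuation L x.val = 1 := by
  simp [Eu, AddSubgroup.mem_iInf, AddMonoidHom.mem_ker, ord_eq_zero_iff]

end LNM

open LNM in
theorem rowLNM : OfLNM := by
  intro _ _ hq hp d hd
  by_cases hsq : IsSquare (d : ℤ)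
  · refine ⟨0, fun L _ _ M s θ σ γ h _ => ?_⟩
    obtain ⟨r, hr⟩ := Int.isSquare_natCast_iff.1 hsq
    have h1 : IsUnit r := h.sqf r ⟨1, by rw [hr, mul_one]⟩
    have h2 := h.big
    rw [hr, Nat.isUnit_iff.1 h1] at h2
    omega
  obtain ⟨x, y, a, m, hxy, hm, hy⟩ := pell d (by omega) hsq
  refine ⟨a, fun L _ _ M s θ σ γ h h0 => ?_⟩
  obtain ⟨hG, hg, hσ, -, ho, -, -⟩ := hq.gal L d M s θ σ γ h
  obtain ⟨w⟩ := exists_pl (L := L)
  obtain ⟨-, -, h2, -, -⟩ := hp.spl L d M s θ σ γ h hd w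
  have hsI : IsIntegral ℤ s := IsIntegral.of_pow two_pos (by
    rw [h.sq]
    simpa using isIntegral_algebraMap (R := ℤ) (A := L) (x := d))
  have hθI : IsIntegral ℤ θ := tw_int M θ (h.root ▸ isIntegral_zero)
  let s0 : 𝓞 L := ⟨s, hsI⟩
  let t : 𝓞 L := ⟨θ, hθI⟩
  have hs0 : algebraMap (𝓞 L) L s0 = s := rfl
  have ht : tw^[M] t = 0 := by
    apply RingOfIntegers.coe_injective
    rw [tw_map, map_zero]
    exact h.root
  have hxy' : (x : L) ^ 2 - d * (y : L) ^ 2 = 1 := by exact_mod_cast hxy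
  have hinv : ((x : L) + y * s) * (x - y * s) = 1 := by
    linear_combination hxy' - (y : L) ^ 2 * h.sq
  have hinv0 : ((x : 𝓞 L) + y * s0) * (x - y * s0) = 1 := by
    apply RingOfIntegers.coe_injective
    simpa [hs0] using hinv
  have hε0 : (x : L) + y * s ≠ 0 := left_ne_zero_of_mul_eq_one hinv
  have hεv : ∀ v : Sp L, v.valuation L ((x : L) + y * s) = 1 := by
    intro v
    have h3 : (x : 𝓞 L) + y * s0 ∉ v.asIdeal := fun h3 =>
      v.isPrime.ne_top ((Ideal.eq_top_iff_one _).2 (hinv0 ▸ Ideal.mul_mem_right _ _ h3))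
    simpa [hs0] using (val_eq_one_iff v _).2 h3
  let ε : Un L := Un.mk _ hε0
  have hε : ε ∈ Eu L ⊓ (Df γ : Un L →+ Un L).ker := by
    refine AddSubgroup.mem_inf.2 ⟨mem_Eu.2 hεv, ?_⟩
    rw [AddMonoidHom.mem_ker, Df_apply, sub_eq_zero]
    apply Un.ext
    show γ ((x : L) + y * s) = x + y * s
    rw [map_add, map_mul, map_intCast, map_intCast, h.gs]
  obtain ⟨u, hu, hue⟩ := AddSubgroup.nsmul_relIndex_mem ((Eu L).map (Nm γ (2 ^ M))) hε
  change Nm γ (2 ^ M) u = hs (Eu L) (Df γ) (Nm γ (2 ^ M)) • ε at hue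
  set H := hs (Eu L) (Df γ) (Nm γ (2 ^ M)) with hH
  obtain ⟨u0, hu0⟩ := HeightOneSpectrum.mem_integers_of_valuation_le_one (R := 𝓞 L) L u.val
    fun v => (mem_Eu.1 hu v).le
  have hu1 : u0 ∉ w.1.asIdeal := (val_eq_one_iff w.1 u0).1 (by
    have := mem_Eu.1 hu w.1
    rwa [← hu0] at this)
  obtain ⟨n, hn, hcong⟩ := nm_approx σ γ M ho h.rk hg hσ t ht (hp.card L d M s θ σ γ h)
    (fun v => ⟨(hp.spl L d M s θ σ γ h hd v).1, (hp.spl L d M s θ σ γ h hd v).2.1⟩) w u0 hu1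
    (2 ^ M * (M + 2)) (by positivity)
  set v := w.1.valuation L with hv
  have v2 : v 2 = exp (-(2 ^ M : ℤ)) := by
    have := val_eq_exp w.1 (Un.mk (2 : L) two_ne_zero)
    rwa [h2 _ rfl] at this
  have v2lt : v 2 < 1 := by simpa using val_nat_lt_one w.2
  have v2pos : 0 < v 2 := zero_lt_iff.2 (by simp)
  set U := ∏ k ∈ Finset.range (2 ^ M), γ ^ k • u0 with hU
  have hUv : (U : L) = ((x : L) + y * s) ^ H := by
    have := congrArg Un.val hue
    rw [Nm_apply, Un.val_sum, Un.val_nsmul] at this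
    rw [← show ε.val = (x : L) + y * s from rfl, ← this, hU]
    show algebraMap (𝓞 L) L _ = _
    rw [map_prod]
    refine Finset.prod_congr rfl fun k _ => ?_
    rw [Un.val_smul, ← hu0]
    rfl
  have b1 : v ((U : L) - n) ≤ v 2 ^ (M + 2) := by
    have := (w.1.intValuation_le_pow_iff_mem _ _).2 hcong
    rw [← val_coe] at this
    rw [v2, ← exp_nsmul]
    push_cast at this
    refine this.trans (le_of_eq ?_)
    congr 1
    simp
    ring
  have b2 : v ((n : L) ^ 2 - 1) ≤ v 2 ^ (M + 2) := by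
    obtain ⟨c, hc⟩ := hn
    have : (n : L) ^ 2 - 1 = 2 ^ (M + 2) * (c : L) := by exact_mod_cast hc
    rw [this, map_mul, map_pow]
    exact mul_le_of_le_one_right' (by simpa using val_le_one w.1 (c : 𝓞 L))
  have b3 : v ((U : L) ^ 2 - 1) ≤ v 2 ^ (M + 2) := by
    have : (U : L) ^ 2 - 1 = ((U : L) - n) * ((U : L) + n) + ((n : L) ^ 2 - 1) := by ring
    rw [this]
    refine v.map_add_le ?_ b2
    rw [map_mul]
    exact (mul_le_of_le_one_right' (by simpa using val_le_one w.1 (U + n))).trans b1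
  have vs : v s = 1 := by
    have h3 : v (d : L) = 1 := val_coprime w.2 ((Nat.coprime_two_right).2 h.odd)
    rw [← h.sq, map_pow] at h3
    exact (pow_eq_one_iff_of_nonneg zero_le two_ne_zero).1 h3
  have vy : v (y : L) = v 2 ^ (a + 1) := by
    have h3 : v (m : L) = 1 := val_coprime w.2 ((Nat.coprime_two_right).2 hm)
    have h4 : v ((y.natAbs : ℕ) : L) = v 2 ^ (a + 1) := by
      rw [hy]
      push_cast
      rw [map_mul, map_pow, h3, mul_one]
    rw [← h4]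
    rcases Int.natAbs_eq y with e | e
    · conv_lhs => rw [e]
      simp
    · conv_lhs => rw [e]
      simp
  set η : L := ((x : L) + y * s) ^ 2 with hη
  have vη : v (η - 1) = v 2 ^ (a + 2) := by
    have : η - 1 = ((x : L) + y * s) * (2 * (y * s)) := by
      rw [hη]
      linear_combination hinv
    rw [this, map_mul, map_mul, map_mul, hεv w.1, vs, vy, one_mul, mul_one, ← pow_succ']
  have vlt : v 2 ^ (a + 2) < v 2 := by
    rw [pow_succ']
    exact mul_lt_of_lt_one_right v2pos (pow_lt_one₀ zero_le v2lt (by omega))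
  obtain ⟨j, k, ⟨k, rfl⟩, hj⟩ := Nat.exists_eq_two_pow_mul_odd h0
  have f1 := val_odd v v2lt (η := η) (by rw [vη]; exact vlt.trans v2lt)
    (by rw [vη]; exact (pow_pos v2pos _).ne') k
  have f2 := val_two v v2lt (η := η ^ (2 * k + 1)) (by rw [f1, vη]; exact vlt) j
  have f3 : (η ^ (2 * k + 1)) ^ 2 ^ j = (U : L) ^ 2 := by
    rw [hUv, hη, hj, ← pow_mul, ← pow_mul, ← pow_mul]
    congr 1
    ring
  rw [f3, f1, vη, ← pow_add] at f2
  rw [f2, pow_le_pow_iff_right_of_lt_one₀ v2pos v2lt] at b3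
  calc 2 ^ M ≤ 2 ^ (a + j) := Nat.pow_le_pow_right two_pos (by omega)
    _ = 2 ^ a * (2 ^ j * 1) := by ring
    _ ≤ 2 ^ a * H := by
      rw [hj]
      gcongr
      omega

end Pool.Agent.MP_1246c0_nt.H25
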