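import Pool.Agent.MP_1246c0_nt.H66.XRGN1

/-! Families of solutions are spread out. -/

namespace Pool.Agent.MP_1246c0_nt.H25

open Polynomial Finset Matrix
open Pool.Agent.MP_1246c0_nt.H12

namespace RGN

variable {Λ ι : Type} [CommRing Λ] [Fintype ι] [DecidableEq ι] {ℓ : ℕ}

/-- primal and dual families -/
def GG {ℓ : ℕ} (_ : Λ →+* Mb ℓ) (_ : Λ →+* Λ) (K : ℕ) : Type := (Fin K → Vb ℓ) × (Fin K → Vb ℓ)

variable {φ : Λ →+* Mb ℓ} {st : Λ →+* Λ} {K : ℕ}

instance : AddCommGroup (GG φ st K) :=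
  inferInstanceAs (AddCommGroup ((Fin K → Vb ℓ) × (Fin K → Vb ℓ)))

instance : Finite (GG φ st K) := inferInstanceAs (Finite ((Fin K → Vb ℓ) × (Fin K → Vb ℓ)))

theorem gext {y y' : GG φ st K} (h1 : ∀ i, y.1 i = y'.1 i) (h2 : ∀ j, y.2 j = y'.2 j) : y = y' :=
  Prod.ext (funext h1) (funext h2)

variable (φ st) in
/-- an element given by its coordinates -/
def mk (x w : Fin K → Vb ℓ) : GG φ st K := (x, w)

variable (φ st K) in
/-- a pair of matrices as an operator -/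
def TT (s s' : Mb ℓ) : GG φ st K →+ GG φ st K :=
  AddMonoidHom.mk' (fun y => mk φ st (fun i => s *ᵥ y.1 i) fun j => y.2 j ᵥ* s') fun x y =>
    gext (fun i => mulVec_add s (x.1 i) (y.1 i)) fun j => add_vecMul s' (x.2 j) (y.2 j)

instance : Module Λ (GG φ st K) where
  smul h y := TT φ st K (φ h) (φ (st h)) y
  one_smul y := gext (fun i => show φ 1 *ᵥ y.1 i = _ by simp) fun j =>
    show y.2 j ᵥ* φ (st 1) = _ by simp
  mul_smul a b y := gext (fun i => show φ (a * b) *ᵥ y.1 i = φ a *ᵥ φ b *ᵥ y.1 i by simp) fun j =>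
    show y.2 j ᵥ* φ (st (a * b)) = (y.2 j ᵥ* φ (st b)) ᵥ* φ (st a) by
      rw [mul_comm, map_mul, map_mul, vecMul_vecMul]
  smul_zero a := map_zero _
  smul_add a := map_add _
  add_smul a b y := gext (fun i => show φ (a + b) *ᵥ y.1 i = φ a *ᵥ y.1 i + φ b *ᵥ y.1 i by
      rw [map_add, add_mulVec]) fun j =>
    show y.2 j ᵥ* φ (st (a + b)) = y.2 j ᵥ* φ (st a) + y.2 j ᵥ* φ (st b) by
      rw [map_add, map_add, vecMul_add]
  zero_smul y := gext (fun i => show φ 0 *ᵥ y.1 i = 0 by simp) fun j =>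
    show y.2 j ᵥ* φ (st 0) = 0 by simp

theorem sum1 {κ : Type} (S : Finset κ) (f : κ → GG φ st K) (i : Fin K) :
    (∑ l ∈ S, f l).1 i = ∑ l ∈ S, (f l).1 i :=
  map_sum (AddMonoidHom.mk' (fun y : GG φ st K => y.1 i) fun _ _ => rfl) f S

theorem sum2 {κ : Type} (S : Finset κ) (f : κ → GG φ st K) (i : Fin K) :
    (∑ l ∈ S, f l).2 i = ∑ l ∈ S, (f l).2 i :=
  map_sum (AddMonoidHom.mk' (fun y : GG φ st K => y.2 i) fun _ _ => rfl) f S

theorem card_GG : Nat.card (GG φ st K) = 2 ^ (2 * K * ℓ) := by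
  change Nat.card ((Fin K → Fin ℓ → ZMod 2) × (Fin K → Fin ℓ → ZMod 2)) = _
  simp only [Nat.card_prod, Nat.card_fun, Nat.card_zmod, Nat.card_fin]
  ring

/-- the relation in one row -/
def Rw (g : Λ) (s u : Mb ℓ) (a i : ℕ) (ε : F2) (o : GG φ st K) (θ β : Fin K → Vb ℓ)
    (y R : GG φ st K) : Prop :=
  (∀ k, rlP φ g s u a i (y.1 k) (R.1 k + o.1 k)) ∧
    ∀ k, rlD φ g s u a i (β k) (y.2 k + θ k) (R.2 k + ε • y.2 k + o.2 k)

variable {g : Λ} {s u : Mb ℓ} {a : ℕ}

section Rw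

variable {i : ℕ} {ε : F2} {o : GG φ st K} {θ β : Fin K → Vb ℓ}

theorem rw_ge (h : a ≤ i) (y R R' : GG φ st K) (r : Rw g s u a i ε o θ β y R)
    (r' : Rw g s u a i ε o θ β y R') : R = R' := by
  refine gext (fun k => ?_) fun k => ?_
  · have h1 := r.1 k
    have h2 := r'.1 k
    rw [rlP, if_neg h.not_gt] at h1 h2
    split_ifs at h1 h2 <;> exact add_right_cancel (h1.trans h2.symm)
  · have h1 := r.2 k
    have h2 := r'.2 k
    rw [rlD, if_neg h.not_gt] at h1 h2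
    split_ifs at h1 h2 <;> exact add_right_cancel (add_right_cancel (h1.trans h2.symm))

theorem rw_fnl (mo : Mo φ g s u a) : Fnl (Rw g s u a i ε o θ β) := by
  rcases le_or_gt a i with h | h
  · exact Or.inl (rw_ge h)
  · refine Or.inr fun y y' R r r' => gext (fun k => ?_) fun k => ?_
    · have h1 := r.1 k
      have h2 := r'.1 k
      rw [rlP, if_pos h] at h1 h2
      exact h1.trans h2.symm
    · have h1 := r.2 k
      have h2 := r'.2 k
      rw [rlD, if_pos h] at h1 h2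
      rcases f2 ε with rfl | rfl
      · rw [zero_smul] at h1 h2
        exact add_right_cancel (h1.trans h2.symm)
      · rw [one_smul, add_vecMul, add_vecMul] at h1 h2
        refine sub_eq_zero.1 (vo_inj mo i ?_)
        rw [sub_vecMul]
        linear_combination h2 - h1

theorem rw_a (h : i = a) (he : ε = 0) (y R : GG φ st K) (r : Rw g s u a i ε o θ β y R) :
    R = TT φ st K s s y + mk φ st o.1 fun k => θ k ᵥ* s + β k + o.2 k := by
  rw [h, he] at r
  refine gext (fun k => ?_) fun k => ?_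
  · have h := r.1 k
    rw [rlP, if_neg (lt_irrefl a), if_pos rfl] at h
    exact veq h
  · have h := r.2 k
    rw [rlD, if_neg (lt_irrefl a), if_pos rfl, zero_smul, add_zero, add_vecMul] at h
    rw [veq h, add_assoc, add_assoc, ← add_assoc (θ k ᵥ* s)]
    rfl

theorem rw_u (h : i + 1 = a) (he : ε = 0) (y R : GG φ st K) (r : Rw g s u a i ε o θ β y R) :
    y = TT φ st K u u R + mk φ st (fun k => u *ᵥ o.1 k) fun k => o.2 k ᵥ* u + β k + θ k := by
  subst he
  have e : vo φ g u a i = u := by rw [vo, ← h]; simp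
  refine gext (fun k => ?_) fun k => ?_
  · have h1 := r.1 k
    rw [rlP, if_pos (by omega), e, mulVec_add] at h1
    exact h1
  · have h1 := r.2 k
    rw [rlD, if_pos (by omega), e, zero_smul, add_zero, add_vecMul] at h1
    rw [veq h1, add_assoc, add_assoc, ← add_assoc (o.2 k ᵥ* u)]
    rfl

theorem rw_hi (h : a < i) (he : ε = 1) (y R : GG φ st K) (r : Rw g s u a i ε o θ β y R) :
    R = TT φ st K 0 1 y + o := by
  subst he
  refine gext (fun k => ?_) fun k => ?_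
  · have h1 := r.1 k
    rw [rlP, if_neg h.not_gt, if_neg h.ne'] at h1
    rw [veq h1, ← zero_mulVec (y.1 k)]
    rfl
  · have h1 := r.2 k
    rw [rlD, if_neg h.not_gt, if_neg h.ne', one_smul, add_assoc] at h1
    rw [veq h1, zero_add, ← vecMul_one (y.2 k)]
    rfl

end Rw

variable (φ st K) in
/-- the parameters -/
abbrev Om (B : Finset ι) (A : ℕ) : Type :=
  ({l // l ∉ B} → GG φ st K) × GG φ st K × GG φ st K × (Fin (A + 1) → GG φ st K)

/-- the relations attached to a parameter -/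
def ok (g : Λ) (s u : Mb ℓ) (a : ℕ) (lv : ι → ℕ) (e c4 : ι → F2) (B : Finset ι) (A : ℕ)
    (M : Matrix ι ι Λ) (c : ι → Λ) (π : Om φ st K B A) (l : ι) : GG φ st K → GG φ st K → Prop :=
  Rw g s u a (lv l) (e l)
    (mk φ st (fun k => ∑ l' : {l // l ∉ B}, φ (M l l') *ᵥ (π.1 l').1 k + e l • π.2.1.1 k +
        φ (nu (lv l) (g - 1)) *ᵥ π.2.2.1.1 k)
      fun k => ∑ l' : {l // l ∉ B}, (π.1 l').2 k ᵥ* φ (M l' l) + e l • π.2.1.2 k +
        π.2.2.1.2 k ᵥ* φ (c l))
    π.2.1.2 fun k => if h : lv l < A + 1 then c4 l • (π.2.2.2 ⟨_, h⟩).2 k else 0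

variable {au : Λ →+* F2} {n : ℕ} {lv : ι → ℕ} {e c4 : ι → F2} {B : Finset ι} {i1 : ι}
  {M H : Matrix ι ι Λ} {c : ι → Λ} {tp j0 A : ℕ} {v : Fin K → Option ι → Vb ℓ}
  {m θ wi : Fin K → Vb ℓ} {w : Fin K → ι → Vb ℓ} {bt : Fin K → ℕ → Vb ℓ}

omit [Fintype ι] [DecidableEq ι] in
theorem off_eq (hH : H ∈ Hs st B B) {l l' : ι} (h : l ∉ B ∨ l' ∉ B) : (M + H) l l' = M l l' := by
  rw [Matrix.add_apply, hH.2.2 l l' (by tauto), add_zero]

theorem ex_ok (mx : Mx st au g n lv e B i1 M c tp j0) (mo : Mo φ g s u a) (hA : a ≤ A)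
    (hH : H ∈ Hs st B B) (hP : ∀ i, Ps φ g s u a lv e i1 (M + H) c (v i) (m i))
    (hD : ∀ j, Ds φ g s u a lv e c4 i1 (M + H) c (w j) (θ j) (wi j) (bt j)) (y : ι → GG φ st K)
    (hy : ∀ l, y l = mk φ st (fun i => v i (some l)) fun j => w j l + θ j) :
    ∃ π : Om φ st K B A, ∀ l ∈ B, ok g s u a lv e c4 B A M c π l (y l) (apB B (M + H) y l) := by
  have sy : SymC st au g n lv (M + H) c B := fun l hl l' hl' => by
    convert mx.sym l hl l' hl' using 1
    rw [Matrix.add_apply, Matrix.add_apply, map_add, hH.1 l l', mx.lg.lr.inv]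
    linear_combination H l l' * mx.lg.lr.two
  refine ⟨(fun l => y l, mk φ st (fun i => v i none) θ,
    mk φ st m fun j => wi j + ∑ l ∈ B, (w j l + θ j) ᵥ* φ (st (c l)),
    fun b => mk φ st 0 fun j => bt j b), fun l hl => ⟨fun k => ?_, fun k => ?_⟩⟩
  · convert (hP k).row l fun h => mx.nb (h ▸ hl) using 1
    · rw [hy]
      rfl
    · rw [← sum_add_sum_compl B, sum_subtype Bᶜ (p := fun l => l ∉ B) fun _ => mem_compl, apB,
        sum1, add_assoc, add_assoc, ← add_assoc (∑ _ : {l // l ∉ B}, _)]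
      simp only [hy, fun l' : {l // l ∉ B} => off_eq (M := M) (l := l) hH (Or.inr l'.2)]
      rfl
  · have := dual_col mx.lg.lr mo sy mx.ac (hD k) hl
      (β := if h : lv l < A + 1 then c4 l • bt k (lv l) else 0)
      fun h => by rw [dif_pos (by omega)]
    simp only [fun l' : {l // l ∉ B} => off_eq (M := M) (l' := l) hH (Or.inl l'.2)] at this
    rw [apB, sum2]
    simp only [hy]
    exact this

theorem det0 (mx : Mx st au g n lv e B i1 M c tp j0) (t : ι → F2) (h1 : ∀ l ∈ B, t l = 0)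
    (h2 : ∀ l ∈ B, tp / 2 < lv l → e l = 0 → ∑ l', au (M l l') * t l' = 0) : t = 0 := by
  by_contra h
  obtain ⟨l, a1, a2, a3, a4⟩ := mx.nc.det t h1 h
  exact zero_ne_one ((h2 l a1 a2 a3).symm.trans a4)

theorem spread (qf : SQF) (mx : Mx st au g n lv e B i1 M c tp j0) (mo : Mo φ g s u a)
    (hA : a ≤ tp / 2) (htp : 1 ≤ tp) (hH : H ∈ Hs st B B)
    (hP : ∀ i, Ps φ g s u a lv e i1 (M + H) c (v i) (m i))
    (hD : ∀ j, Ds φ g s u a lv e c4 i1 (M + H) c (w j) (θ j) (wi j) (bt j))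
    (W : Submodule Λ (GG φ st K))
    (hy : ∀ l ∈ B, mk φ st (fun i => v i (some l)) (fun j => w j l + θ j) ∈ W)
    (hs : ∀ x ∈ W, TT φ st K s s x ∈ W) (hu : ∀ x ∈ W, TT φ st K u u x ∈ W)
    (h2 : ∀ x ∈ W, TT φ st K 0 1 x ∈ W) {J1 J2 : Finset ι} {C : ℕ}
    (k1 : ∀ y0 ∈ W, J1.card ≤ C * Nat.card {l // l ∈ J1 ∧
      mk φ st (fun i => v i (some l)) (fun j => w j l + θ j) = y0})
    (k2 : ∀ y0 ∈ W, J2.card ≤ C * Nat.card {l // l ∈ J2 ∧
      mk φ st (fun i => v i (some l)) (fun j => w j l + θ j) = y0}) :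
    Spr (φ g) s u (C * C) J1 J2 v w fun j => w j ≠ 0 ∨ θ j ≠ 0 ∨ wi j ≠ 0 := by
  have lr := mx.lg.lr
  have p2 : ∀ x z, mk φ st x z ∈ W → mk φ st 0 z ∈ W := fun x z h => by
    convert h2 _ h using 1
    exact gext (fun i => (zero_mulVec (x i)).symm) fun _ => (vecMul_one _).symm
  have p1 : ∀ x z, mk φ st x z ∈ W → mk φ st x 0 ∈ W := fun x z h => by
    convert sub_mem h (p2 x z h) using 1
    exact gext (fun _ => (sub_zero _).symm) fun _ => (sub_self _).symm
  have hx : ∀ l, mk φ st (fun i => v i (some l)) 0 ∈ W := by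
    refine socW qf lr W (· ∈ B) (fun l : {l // l ∈ B ∧ tp / 2 < lv l ∧ e l = 0} => (M + H) l)
      _ (fun l hl => p1 _ _ (hy l hl)) (fun l => gext (fun k => ?_) fun k => ?_) fun t a1 a2 =>
      det0 mx t a1 fun l b1 b2 b3 => ?_
    · have h := (hP k).row l fun h => mx.nb (h ▸ l.2.1)
      have hl : a < lv l := hA.trans_lt l.2.2.1
      rw [rlP, if_neg hl.not_gt, if_neg hl.ne', l.2.2.2, zero_smul, add_zero,
        ph_dvd mo.ta (nu_dvd lr.two g hl), zero_mulVec, add_zero] at h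
      rw [sum1]
      exact h
    · rw [sum2]
      exact sum_eq_zero fun l' _ => zero_vecMul (φ (st ((M + H) l l')))
    · refine Eq.trans (sum_congr rfl fun l' _ => ?_) (a2 ⟨l, b1, b2, b3⟩)
      by_cases h : l' ∈ B
      · rw [a1 l' h, mul_zero, mul_zero]
      · rw [off_eq hH (Or.inr h)]
  have hn : mk φ st (fun i => v i none) 0 ∈ W := by
    convert neg_mem (sum_mem fun l (_ : l ∈ univ) => W.smul_mem (c l) (hx l)) using 1
    refine eq_neg_of_add_eq_zero_right (gext (fun k => ?_) fun k => ?_)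
    · exact (congrArg (· + v k none) (sum1 _ _ k)).trans (hP k).inf
    · exact (congrArg (· + 0) (sum2 _ _ k)).trans
        ((add_zero _).trans (sum_eq_zero fun l _ => zero_vecMul (φ (st (c l)))))
  have hw : ∀ o : Option ι, mk φ st 0 (fun j => o.elim (wi j) (w j) + θ j) ∈ W := by
    refine socW qf lr W (fun o => ∃ l ∈ B, o = some l)
      (fun (l' : {l // l ∈ B ∧ tp / 2 < lv l}) o => st (o.elim (c l') fun l => (M + H) l l'))
      _ ?_ (fun l => gext (fun k => ?_) fun k => ?_) fun t a1 a2 => ?_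
    · rintro _ ⟨l, hl, rfl⟩
      exact p2 _ _ (hy l hl)
    · rw [sum1]
      exact sum_eq_zero fun o _ => mulVec_zero (φ (st (o.elim (c l) fun l' => (M + H) l' l)))
    · have h := (hD k).col l
      have hl : a < lv l := hA.trans_lt l.2.2
      rw [rlD, if_neg hl.not_gt, if_neg hl.ne', ← mx.ac, ← vm_fix lr (hD k).k1, add_assoc,
        ← add_vecMul, add_comm, add_comm (θ k)] at h
      rw [sum2, Fintype.sum_option]
      refine Eq.trans ?_ h
      congr 1
      · exact congrArg (fun z => (wi k + θ k) ᵥ* φ z) (lr.inv _)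
      · exact sum_congr rfl fun l' _ => congrArg (fun z => (w k l' + θ k) ᵥ* φ z) (lr.inv _)
    · simp only [lr.aust, Fintype.sum_option, Option.elim, mx.ac] at a2
      have b0 : (fun l => t (some l)) = 0 := det0 mx _ (fun l hl => a1 _ ⟨l, hl, rfl⟩)
        fun l b1 b2 b3 => by
          have := a2 ⟨l, b1, b2⟩
          rw [b3, zero_mul, zero_add] at this
          refine Eq.trans (sum_congr rfl fun l' _ => ?_) this
          by_cases h : l' ∈ B
          · rw [a1 _ ⟨l', h, rfl⟩, mul_zero, mul_zero]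
          · rw [off_eq hH (Or.inl h)]
            exact congrArg (· * _) (mx.nc.cross l b1 l' h b3).symm
      obtain ⟨l, hl⟩ := card_pos.1 (lt_of_lt_of_le (by positivity) (mx.nc.cnt tp le_rfl 1).1)
      obtain ⟨b1, b2, b3⟩ := mem_filter.1 hl
      have := a2 ⟨l, b1, by omega⟩
      rw [b3, one_mul, sum_eq_zero fun l' _ => by rw [congrFun b0 l', Pi.zero_apply, mul_zero],
        add_zero] at this
      funext o
      cases o
      exacts [this, congrFun b0 _]
  have hθ : mk φ st 0 θ ∈ W := by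
    convert hw (some i1) using 3 with j
    rw [Option.elim, (hD j).k2, zero_add]
  have hw' : ∀ o : Option ι, mk φ st 0 (fun j => o.elim (wi j) (w j)) ∈ W := fun o => by
    convert sub_mem (hw o) hθ using 1
    exact gext (fun _ => (sub_self _).symm) fun _ => (add_sub_cancel_right _ _).symm
  refine ⟨(k1 _ hθ).trans ?_, fun i j g3 nz => ?_⟩
  · refine Nat.mul_le_mul (Nat.le_mul_self C) (Nat.card_le_card_of_injective
      (Subtype.map id fun l h => ⟨h.1, fun i => congrFun (congrArg Prod.fst h.2) i, fun j =>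
        add_eq_right.1 (congrFun (congrArg Prod.snd h.2) j)⟩)
      (Subtype.map_injective _ Function.injective_id))
  · obtain ⟨z, hz, z0⟩ : ∃ z, mk φ st 0 z ∈ W ∧ z j ≠ 0 := by
      rcases nz with h | h | h
      · obtain ⟨l, hl⟩ := Function.ne_iff.1 h
        exact ⟨_, hw' (some l), hl⟩
      · exact ⟨_, hθ, h⟩
      · exact ⟨_, hw' none, h⟩
    obtain ⟨k, hk⟩ := Function.ne_iff.1 z0
    let V : AddSubgroup (Vb ℓ) :=
      { carrier := {t | ∃ x, mk φ st x 0 ∈ W ∧ x i = t}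
        zero_mem' := ⟨0, W.zero_mem, rfl⟩
        add_mem' := fun ⟨x, a1, a2⟩ ⟨x', b1, b2⟩ =>
          ⟨x + x', p1 _ _ (W.add_mem a1 b1), by rw [← a2, ← b2]; rfl⟩
        neg_mem' := fun ⟨x, a1, a2⟩ => ⟨-x, p1 _ _ (W.neg_mem a1), by rw [← a2]; rfl⟩ }
    have hV : V = ⊤ := g3 V (by
      rintro _ ⟨x, a1, rfl⟩
      exact ⟨⟨_, p1 _ _ (W.smul_mem g a1), rfl⟩, ⟨_, p1 _ _ (hs _ a1), rfl⟩,
        ⟨_, p1 _ _ (hu _ a1), rfl⟩⟩) fun o => by
      cases o
      exacts [⟨_, hn, rfl⟩, ⟨_, hx _, rfl⟩]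
    obtain ⟨x, a1, a2⟩ : Pi.single k 1 ∈ V := hV ▸ AddSubgroup.mem_top _
    have c1 := k2 _ (W.add_mem a1 hθ)
    have c2 := k2 _ (W.add_mem hz hθ)
    rw [sq]
    refine (Nat.mul_le_mul c1 c2).trans ?_
    rw [mul_mul_mul_comm, ← Nat.card_prod]
    refine Nat.mul_le_mul_left _ (Nat.card_le_card_of_injective (fun q => ⟨(q.1.1, q.2.1),
      q.1.2.1, q.2.2.1, fun j' => ?_, ?_⟩) fun q q' h => ?_)
    · exact add_right_cancel (congrFun (congrArg Prod.snd q.1.2.2) j')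
    · have e1 : w j q.2.1 = z j := add_right_cancel (congrFun (congrArg Prod.snd q.2.2.2) j)
      have e2 : v i (some q.1.1) = x i := (congrFun (congrArg Prod.fst q.1.2.2) i).trans (add_zero _)
      rw [e1, e2, a2, dotProduct_single, mul_one]
      exact (f2 _).resolve_left hk
    · have := congrArg Subtype.val h
      exact Prod.ext (Subtype.ext (congrArg Prod.fst this)) (Subtype.ext (congrArg Prod.snd this))

theorem ind3 {p q1 q2 q3 : Prop} (h : p → ¬q1 → ¬q2 → q3) : ind p ≤ ind q1 + ind q2 + ind q3 := by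
  unfold ind
  split_ifs <;> first | tauto | norm_num

end RGN

open RGN in
theorem rowRGN : OfRGN := by
  intro av qf rg ε ℓ K A j0 hε
  obtain ⟨γ, hγ⟩ : ∃ γ, γ = 2 * K * ℓ := ⟨_, rfl⟩
  obtain ⟨T0, hT⟩ := small ε hε (γ * 2 ^ (j0 + 1)) (γ * (A + 3) + (3 * γ * γ + γ)) (γ + 2)
  refine ⟨2 * T0 + 2 * A + 2, ?_⟩
  intro Λ ι _ _ _ _ st au g n lv e c4 B J1 J2 i1 M c tp φ s u a htp mx mo hA hJ h1 h2
  have cG : Nat.card (GG φ st K) = 2 ^ γ := hγ ▸ card_GG
  have fn : ∀ π : Om φ st K B A, ∀ l ∈ B, Fnl (ok g s u a lv e c4 B A M c π l) :=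
    fun π l _ => rw_fnl mo
  have u0 := rg.uns Λ ι _ _ st B M _ γ (2 ^ (tp / 2)) mx.lg.lr.inv cG fn
  have u1 := rg.hit Λ ι _ _ st B J1 M _ γ mx.lg.lr.inv cG fn
    (fun l hl => (hJ l (mem_union_left _ hl)).1)
    fun π l hl => rw_ge (hA.trans (hJ l (mem_union_left _ hl)).2.le)
  have u2 := rg.hit Λ ι _ _ st B J2 M _ γ mx.lg.lr.inv cG fn
    (fun l hl => (hJ l (mem_union_right _ hl)).1)
    fun π l hl => rw_ge (hA.trans (hJ l (mem_union_right _ hl)).2.le)
  have u3 := add_le_add (add_le_add u0 u1) u2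
  rw [← av.add, ← av.add] at u3
  refine (av.mono _ _ _ _ fun H hH => ind3 ?_).trans (u3.trans (le_trans ?_ (hT (tp / 2) (by omega))))
  · rintro ⟨v, m, w, θ, wi, bt, hP, hD, hS⟩ n0 n1
    by_contra n2
    obtain ⟨y, hy⟩ : ∃ y : ι → GG φ st K,
      y = fun l => mk φ st (fun i => v i (some l)) fun j => w j l + θ j := ⟨_, rfl⟩
    obtain ⟨π, hπ⟩ := ex_ok (c4 := c4) mx mo hA hH hP hD y (congrFun hy)
    have cl : ∀ b ≤ A + 1, ∀ η : F2, ∃ l, lv l = b ∧ e l = η ∧ ¬2 * Nat.card {q : _ × _ //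
        q.1 ∈ sp Λ y B ∧ q.2 ∈ sp Λ y B ∧ ok g s u a lv e c4 B A M c π l q.1 q.2} ≤
          Nat.card (sp Λ y B) := by
      intro b hb η
      by_contra hn
      push Not at hn
      refine n0 ⟨π, y, hπ, (Nat.pow_le_pow_right two_pos (by unfold jj; omega)).trans
        ((mx.nc.cnt b (by omega) η).1.trans ?_)⟩
      rw [← Nat.card_eq_finsetCard]
      exact Nat.card_le_card_of_injective (Subtype.map id fun l hl =>
        ⟨(mem_filter.1 hl).1, hn l (mem_filter.1 hl).2.1 (mem_filter.1 hl).2.2⟩)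
        (Subtype.map_injective _ Function.injective_id)
    refine hS ?_
    rw [← hγ, show (4 : ℕ) = 2 * 2 from rfl, mul_pow]
    refine spread qf mx mo (by omega) (by omega) hH hP hD (sp Λ y B)
      (fun l hl => Submodule.subset_span ⟨l, hl, congrFun hy l⟩) ?_ ?_ ?_
      (fun y0 h0 => not_lt.1 fun h => n1 ⟨π, y, hπ, y0, h0, by rw [hy]; exact h⟩)
      fun y0 h0 => not_lt.1 fun h => n2 ⟨π, y, hπ, y0, h0, by rw [hy]; exact h⟩
    · obtain ⟨l, a1, a2, a3⟩ := cl a (by omega) 0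
      exact half1 _ _ _ _ (rw_a a1 a2) a3
    · rcases Nat.eq_zero_or_pos a with h | h
      · intro x _
        convert (sp Λ y B).zero_mem using 1
        rw [mo.h0 h]
        exact gext (fun i => zero_mulVec (x.1 i)) fun j => vecMul_zero (x.2 j)
      · obtain ⟨l, a1, a2, a3⟩ := cl (a - 1) (by omega) 0
        exact half2 _ _ _ _ (rw_u (by omega) a2) a3
    · obtain ⟨l, a1, a2, a3⟩ := cl (A + 1) le_rfl 1
      exact half1 _ _ _ _ (rw_hi (by omega) a2) a3
  · have c1 : Bᶜ.card ≤ 2 ^ (j0 + 1) * 2 ^ (tp / 2 / 5) := by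
      rw [← pow_add]
      exact mx.nc.sml.trans (Nat.pow_le_pow_right two_pos (by unfold jj; omega))
    have c2 : Nat.card (Om φ st K B A) ≤ 2 ^ (γ * 2 ^ (j0 + 1) * 2 ^ (tp / 2 / 5) + γ * (A + 3)) := by
      simp only [Nat.card_prod, Nat.card_fun, cG, Nat.card_fin,
        Nat.subtype_card Bᶜ (p := fun l => l ∉ B) fun _ => mem_compl, ← pow_mul, ← pow_add]
      exact Nat.pow_le_pow_right two_pos (by nlinarith [Nat.mul_le_mul_left γ c1])
    have c3 : (Nat.card (Om φ st K B A) : ℝ) ≤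
        2 ^ (γ * 2 ^ (j0 + 1) * 2 ^ (tp / 2 / 5) + γ * (A + 3)) := by exact_mod_cast c2
    have c4 : ∀ J : Finset ι, 2 ^ (tp / 2) ≤ J.card →
        Real.exp (-(J.card / 2 ^ (γ + 2))) ≤ Real.exp (-(2 ^ (tp / 2) / 2 ^ (γ + 2))) :=
      fun J hJ => by
        gcongr
        exact_mod_cast hJ
    have c5 : ((2 : ℝ) ^ 2 ^ (tp / 2))⁻¹ ≤ Real.exp (-(2 ^ (tp / 2) / 2 ^ (γ + 2))) := by
      rw [Real.exp_neg]
      gcongr
      rw [show (2 : ℝ) ^ 2 ^ (tp / 2) = Real.exp ((2 ^ (tp / 2) : ℕ) * Real.log 2) by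
        rw [Real.exp_nat_mul, Real.exp_log two_pos]]
      push_cast
      rw [div_eq_mul_inv]
      gcongr
      refine (inv_anti₀ two_pos (le_self_pow₀ one_le_two (by omega))).trans ?_
      linarith [Real.log_two_gt_d9]
    have c6 : (2 : ℝ) ^ (3 * γ * γ) ≤ 2 ^ (3 * γ * γ + γ) :=
      pow_le_pow_right₀ one_le_two (by omega)
    have c7 := c4 J1 h1
    have c8 := c4 J2 h2
    rw [← add_assoc, pow_add _ _ (3 * γ * γ + γ), div_eq_mul_inv _ ((2 : ℝ) ^ 2 ^ (tp / 2)),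
      show ∀ x : ℝ, 3 * x = x + x + x from fun x => by ring]
    gcongr

end Pool.Agent.MP_1246c0_nt.H25
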