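import Pool.Agent.MP_1246c0_nt.H25.SpecR

/-! Families of solutions are spread out: general lemmas. -/

namespace Pool.Agent.MP_1246c0_nt.H25

open Polynomial Finset Matrix
open Pool.Agent.MP_1246c0_nt.H12

namespace RGN

section Gen

variable {Λ G : Type} [CommRing Λ] [AddCommGroup G] [Module Λ G]

theorem half {Q : Type} [Finite G] [Finite Q] (W : Submodule Λ G) (T : G →+ G) (o : G)
    (p q : Q → G) (hp : p.Injective) (h1 : ∀ z, p z ∈ W) (h2 : ∀ z, q z ∈ W)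
    (h3 : ∀ z, q z = T (p z) + o) (hc : Nat.card W < 2 * Nat.card Q) : ∀ x ∈ W, T x ∈ W := by
  intro x hx
  by_contra hn
  have key : ∀ z z', p z ≠ x + p z' := fun z z' e => hn (by
    have : T x = q z - q z' := by rw [h3, h3, e, map_add]; abel
    rw [this]
    exact sub_mem (h2 z) (h2 z'))
  have inj : Function.Injective (Sum.elim (fun z => ⟨p z, h1 z⟩)
      (fun z => ⟨x + p z, add_mem hx (h1 z)⟩) : Q ⊕ Q → W) := by
    rintro (z | z) (z' | z') e
    · exact congrArg _ (hp (congrArg Subtype.val e))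
    · exact absurd (congrArg Subtype.val e) (key z z')
    · exact absurd (congrArg Subtype.val e).symm (key z' z)
    · exact congrArg _ (hp (add_left_cancel (congrArg Subtype.val e)))
  have := Nat.card_le_card_of_injective _ inj
  rw [Nat.card_sum] at this
  omega

theorem half1 [Finite G] (W : Submodule Λ G) (T : G →+ G) (o : G) (r : G → G → Prop)
    (h : ∀ y R, r y R → R = T y + o)
    (hc : ¬2 * Nat.card {q : G × G // q.1 ∈ W ∧ q.2 ∈ W ∧ r q.1 q.2} ≤ Nat.card W) :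
    ∀ x ∈ W, T x ∈ W :=
  half W T o (fun z : {q : G × G // q.1 ∈ W ∧ q.2 ∈ W ∧ r q.1 q.2} => z.1.1) (fun z => z.1.2)
    (fun z z' e => Subtype.ext (Prod.ext e (by
      rw [h _ _ z.2.2.2, h _ _ z'.2.2.2]
      exact congrArg (fun t => T t + o) e)))
    (fun z => z.2.1) (fun z => z.2.2.1) (fun z => h _ _ z.2.2.2) (not_le.1 hc)

theorem half2 [Finite G] (W : Submodule Λ G) (T : G →+ G) (o : G) (r : G → G → Prop)
    (h : ∀ y R, r y R → y = T R + o)
    (hc : ¬2 * Nat.card {q : G × G // q.1 ∈ W ∧ q.2 ∈ W ∧ r q.1 q.2} ≤ Nat.card W) :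
    ∀ x ∈ W, T x ∈ W :=
  half W T o (fun z : {q : G × G // q.1 ∈ W ∧ q.2 ∈ W ∧ r q.1 q.2} => z.1.2) (fun z => z.1.1)
    (fun z z' e => Subtype.ext (Prod.ext (by
      rw [h _ _ z.2.2.2, h _ _ z'.2.2.2]
      exact congrArg (fun t => T t + o) e) e))
    (fun z => z.2.2.1) (fun z => z.2.1) (fun z => h _ _ z.2.2.2) (not_le.1 hc)

theorem socW (qf : SQF) {κ κ' : Type} [Fintype κ] {st : Λ →+* Λ} {au : Λ →+* F2} {τ : Λ} {N : ℕ}
    (lr : LR st au τ N) (W : Submodule Λ G) (kn : κ → Prop) (A : κ' → κ → Λ) (x : κ → G)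
    (h1 : ∀ j, kn j → x j ∈ W) (h2 : ∀ i, ∑ j, A i j • x j = 0)
    (h3 : ∀ t : κ → F2, (∀ j, kn j → t j = 0) → (∀ i, ∑ j, au (A i j) * t j = 0) → t = 0) :
    ∀ j, x j ∈ W := by
  classical
  have := qf.soc Λ (G ⧸ W) κ ({j // kn j} ⊕ κ') st au τ N
    (Sum.elim (fun i j => if j = i.1 then 1 else 0) A) lr (fun t ht => h3 t (fun j hj => ?_)
      fun i => ht (.inr i)) (fun j => W.mkQ (x j)) ?_
  · exact fun j => (Submodule.Quotient.mk_eq_zero W).1 (congrFun this j)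
  · simpa [apply_ite au] using ht (.inl ⟨j, hj⟩)
  · rintro (i | i)
    · simpa using h1 i.1 i.2
    · simp only [Sum.elim_inr, ← map_smul, ← map_sum, h2, map_zero]

theorem pw2 (two : (2 : Λ) = 0) (g : Λ) (k : ℕ) : (g - 1) ^ 2 ^ k = 1 + g ^ 2 ^ k := by
  induction k with
  | zero => linear_combination (-1) * two
  | succ k ih =>
    rw [pow_succ, pow_mul, pow_mul, ih]
    linear_combination g ^ 2 ^ k * two

theorem nu_dvd (two : (2 : Λ) = 0) (g : Λ) {a i : ℕ} (h : a < i) :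
    (g - 1) ^ 2 ^ a ∣ nu i (g - 1) := by
  obtain ⟨k, rfl⟩ : ∃ k, i = k + 1 := ⟨i - 1, by omega⟩
  have e : nu (k + 1) (g - 1) = (g - 1) ^ 2 ^ k * nu k (g - 1) := by
    rw [pw2 two, nu, nu, pow_succ, mul_two, sum_range_add, add_mul, one_mul, mul_sum]
    simp [pow_add]
  rw [e]
  exact (pow_dvd_pow _ (Nat.pow_le_pow_right two_pos (by omega))).mul_right _

end Gen

theorem small (ε : ℝ) (hε : 0 < ε) (a b D : ℕ) : ∃ T0 : ℕ, ∀ T ≥ T0,
    3 * (2 ^ (a * 2 ^ (T / 5) + b) * Real.exp (-(2 ^ T / 2 ^ D))) ≤ ε := by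
  obtain ⟨N, hN⟩ := exists_nat_ge (3 / ε)
  refine ⟨5 * (N + 2 ^ D * (a + 1 + b)), fun T hT => ?_⟩
  obtain ⟨z, hz⟩ : ∃ z, z = 2 ^ (T / 5) := ⟨_, rfl⟩
  have h1 : T / 5 < z := hz ▸ Nat.lt_two_pow_self
  have h2 : z * z ≤ 2 ^ T := by
    rw [hz, ← pow_add]
    exact Nat.pow_le_pow_right two_pos (by omega)
  have h3 : 2 ^ D * (a + 1 + b) ≤ z := by omega
  have h4 : 2 ^ D * (a * z + b + z) ≤ 2 ^ T :=
    calc 2 ^ D * (a * z + b + z) ≤ 2 ^ D * ((a + 1 + b) * z) :=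
          Nat.mul_le_mul_left _ (by nlinarith [Nat.zero_le (T / 5)])
      _ ≤ z * z := by
          rw [← mul_assoc]
          exact Nat.mul_le_mul_right _ h3
      _ ≤ _ := h2
  have h5 : ((a * z + b : ℕ) : ℝ) + z ≤ 2 ^ T / 2 ^ D := by
    rw [le_div_iff₀ (by positivity), mul_comm]
    exact_mod_cast h4
  have h6 : (2 : ℝ) ^ (a * z + b) ≤ Real.exp ((a * z + b : ℕ) : ℝ) := by
    rw [← Real.exp_one_pow]
    exact pow_le_pow_left₀ zero_le_two (by linarith [Real.add_one_le_exp 1]) _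
  have h7 : 3 / ε ≤ Real.exp z := by
    have : (N : ℝ) ≤ z := by exact_mod_cast (by omega : N ≤ z)
    linarith [Real.add_one_le_exp z]
  rw [← hz]
  calc 3 * (2 ^ (a * z + b) * Real.exp (-(2 ^ T / 2 ^ D)))
      ≤ 3 * (Real.exp ((a * z + b : ℕ) : ℝ) * Real.exp (-(((a * z + b : ℕ) : ℝ) + z))) := by
        gcongr
    _ = 3 / Real.exp z := by rw [← Real.exp_add, neg_add, add_neg_cancel_left, Real.exp_neg]; rfl
    _ ≤ ε := by
        rw [div_le_iff₀ (Real.exp_pos _)]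
        rwa [div_le_iff₀ hε, mul_comm] at h7

section Vec

variable {Λ : Type} [CommRing Λ] {ℓ : ℕ}

theorem f2 : ∀ ε : F2, ε = 0 ∨ ε = 1 := by decide

theorem vadd (x : Vb ℓ) : x + x = 0 := funext fun _ => CharTwo.add_self_eq_zero _

theorem veq {x y z : Vb ℓ} (h : x + y = z) : x = z + y := by rw [← h, add_assoc, vadd, add_zero]

theorem vm_val (φ : Λ →+* Mb ℓ) (y : Vb ℓ) (ε : F2) : y ᵥ* φ (ε.val : Λ) = ε • y := by
  rcases f2 ε with rfl | rfl <;> simp [ZMod.val_one]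

variable {φ : Λ →+* Mb ℓ} {g : Λ} {s u : Mb ℓ} {a : ℕ}

theorem vm_dvd {y : Vb ℓ} {p q : Λ} (h : y ᵥ* φ p = 0) (d : p ∣ q) : y ᵥ* φ q = 0 := by
  obtain ⟨r, rfl⟩ := d
  rw [map_mul, ← vecMul_vecMul, h, zero_vecMul]

theorem ph_dvd {p q : Λ} (h : φ p = 0) (d : p ∣ q) : φ q = 0 := by
  obtain ⟨r, rfl⟩ := d
  rw [map_mul, h, zero_mul]

theorem vm_tau {θ : Vb ℓ} (h : θ ᵥ* φ g = θ) : θ ᵥ* φ (g - 1) = 0 := by
  rw [map_sub, vecMul_sub, h, map_one, vecMul_one, sub_self]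

theorem vm_fix {st : Λ →+* Λ} {au : Λ →+* F2} {N : ℕ} (lr : LR st au (g - 1) N) {θ : Vb ℓ}
    (h : θ ᵥ* φ g = θ) (c : Λ) : θ ᵥ* φ c = au c • θ := by
  have := vm_dvd (vm_tau h) ((lr.ker (c - (au c).val)).1 (by simp))
  rwa [map_sub, vecMul_sub, vm_val, sub_eq_zero] at this

theorem vo_inj (mo : Mo φ g s u a) (i : ℕ) {y : Vb ℓ} (h : y ᵥ* vo φ g u a i = y) : y = 0 := by
  have c : Commute (φ ((g - 1) ^ (2 ^ (a - 1) - 2 ^ i))) u := by
    rw [map_pow, map_sub, map_one]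
    exact (Commute.sub_left mo.cm (Commute.one_left u)).pow_left _
  obtain ⟨k, hk⟩ : IsNilpotent (vo φ g u a i) := c.isNilpotent_mul_left mo.nil
  have : ∀ j : ℕ, y ᵥ* vo φ g u a i ^ j = y := fun j => by
    induction j with
    | zero => simp
    | succ j ih => rw [pow_succ, ← vecMul_vecMul, ih, h]
  rw [← this k, hk, vecMul_zero]

/-- the error terms -/
def Err (φ : Λ →+* Mb ℓ) (g : Λ) (u : Mb ℓ) (a i : ℕ) : AddSubgroup (Vb ℓ) where
  carrier := {z | (i < a → z ᵥ* vo φ g u a i = 0) ∧ (a ≤ i → z = 0)}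
  zero_mem' := ⟨fun _ => zero_vecMul _, fun _ => rfl⟩
  add_mem' := fun h h' => ⟨fun k => by rw [add_vecMul, h.1 k, h'.1 k, add_zero],
    fun k => by rw [h.2 k, h'.2 k, add_zero]⟩
  neg_mem' := fun h => ⟨fun k => by rw [neg_vecMul, h.1 k, neg_zero],
    fun k => by rw [h.2 k, neg_zero]⟩

theorem rlD_err {i : ℕ} {β β' w R z : Vb ℓ} (hz : z ∈ Err φ g u a i) (hβ : i ≤ a → β = β')
    (h : rlD φ g s u a i β w (R + z)) : rlD φ g s u a i β' w R := by
  unfold rlD at h ⊢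
  split_ifs at h ⊢ with h1 h2
  · rwa [add_vecMul, hz.1 h1, add_zero, hβ h1.le] at h
  · rwa [hz.2 h2.ge, add_zero, hβ h2.le] at h
  · rwa [hz.2 (not_lt.1 h1), add_zero] at h

theorem err_mem (mo : Mo φ g s u a) (y : Vb ℓ) {i : ℕ} {d : Λ} (h : (g - 1) ^ 2 ^ i ∣ d) :
    y ᵥ* φ d ∈ Err φ g u a i := by
  refine ⟨fun k => ?_, fun k => ?_⟩
  · obtain ⟨r, rfl⟩ := h
    have e : 2 ^ (a - 1) = 2 ^ i + (2 ^ (a - 1) - 2 ^ i) :=
      (Nat.add_sub_cancel' (Nat.pow_le_pow_right two_pos (by omega))).symm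
    rw [vecMul_vecMul, vo, ← mul_assoc, ← map_mul, mul_comm _ r, mul_assoc, ← pow_add, ← e,
      map_mul, mul_assoc, mo.ua (by omega), mul_zero, vecMul_zero]
  · rw [ph_dvd mo.ta ((pow_dvd_pow _ (Nat.pow_le_pow_right two_pos k)).trans h), vecMul_zero]

variable {ι : Type} [Fintype ι] [DecidableEq ι]

/-- a column of the dual system written as a row -/
theorem dual_col {st : Λ →+* Λ} {au : Λ →+* F2} {n : ℕ} (lr : LR st au (g - 1) (2 ^ n))
    (mo : Mo φ g s u a) {lv : ι → ℕ} {e c4 : ι → F2} {i1 : ι} {M : Matrix ι ι Λ} {c : ι → Λ}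
    {B : Finset ι} (sy : SymC st au g n lv M c B) (ac : ∀ l, au (c l) = e l) {w : ι → Vb ℓ}
    {θ wi : Vb ℓ} {bt : ℕ → Vb ℓ} (d : Ds φ g s u a lv e c4 i1 M c w θ wi bt) {l' : ι}
    (hl : l' ∈ B) {β : Vb ℓ} (hβ : lv l' ≤ a → c4 l' • bt (lv l') = β) :
    rlD φ g s u a (lv l') β (w l' + θ + θ)
      (∑ l ∈ B, (w l + θ) ᵥ* φ (st (M l' l)) + e l' • (w l' + θ) +
        (∑ l : {l // l ∉ B}, (w l + θ) ᵥ* φ (M l l') + e l' • θ +
          (wi + ∑ l ∈ B, (w l + θ) ᵥ* φ (st (c l))) ᵥ* φ (c l'))) := by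
  rw [add_assoc (w l'), vadd, add_zero]
  refine rlD_err (z := ∑ l ∈ B, (w l + θ) ᵥ* φ (M l l' + st (M l' l) -
    (st (c l) * c l' + if l = l' then ((au (c l)).val : Λ) else 0))) (sum_mem fun l hl' => ?_) hβ ?_
  · have h := sy l hl' l' hl
    rcases min_cases (min (lv l) (lv l')) n with ⟨e1, -⟩ | ⟨e1, -⟩
    · rcases min_cases (lv l) (lv l') with ⟨e2, -⟩ | ⟨e2, -⟩
      · rw [e1, e2] at h
        rw [add_vecMul, vm_dvd (d.k0 l) h,
          vm_dvd (vm_tau d.k1) ((dvd_pow_self _ (by positivity)).trans h), add_zero]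
        exact zero_mem _
      · rw [e1, e2] at h
        exact err_mem mo _ h
    · rw [e1, lr.nil, zero_dvd_iff] at h
      rw [h, map_zero, vecMul_zero]
      exact zero_mem _
  · convert d.col l' using 1
    have e1 : ∀ l ∈ B, (w l + θ) ᵥ* φ (M l l') = (w l + θ) ᵥ* φ (st (M l' l)) +
        (if l = l' then e l' • (w l' + θ) else 0) + ((w l + θ) ᵥ* φ (st (c l))) ᵥ* φ (c l') +
        (w l + θ) ᵥ* φ (M l l' + st (M l' l) -
          (st (c l) * c l' + if l = l' then ((au (c l)).val : Λ) else 0)) := by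
      intro l _
      have e2 : (if l = l' then e l' • (w l' + θ) else 0) =
          (w l + θ) ᵥ* φ (if l = l' then ((au (c l)).val : Λ) else 0) := by
        split_ifs with h
        · rw [vm_val, h, ac]
        · rw [map_zero, vecMul_zero]
      rw [e2, vecMul_vecMul, ← map_mul, ← vecMul_add, ← vecMul_add, ← vecMul_add, ← map_add,
        ← map_add, ← map_add]
      congr 2
      linear_combination (-st (M l' l)) * lr.two
    rw [← sum_add_sum_compl B, sum_congr rfl e1, sum_add_distrib, sum_add_distrib, sum_add_distrib,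
      sum_ite_eq' B l', if_pos hl, sum_subtype Bᶜ (p := fun l => l ∉ B) fun _ => mem_compl,
      add_vecMul, sum_vecMul]
    abel

end Vec

end RGN

end Pool.Agent.MP_1246c0_nt.H25
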